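import Mathlib
import Pool.Agent.H720R2.HP.Op
import Pool.Agent.H788R3.Cor2.Asm2
import Pool.Agent.Y263.SC.OpX

/-!
The solution operator of P. Jones type for measurable families of bounded holomorphic functions,
with its dependence on parameters (generalises `Pool.Agent.Y263.SC.OpX`).
-/

set_option autoImplicit false
set_option linter.unusedSectionVars false

open MeasureTheory Metric Set Filter Topology Complex
open scoped ContDiff

namespace Pool.Agent.Y263.LF

open Pool.Agent.H720R2 Pool.Agent.H720R2.HP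
open Pool.Agent.Y263.SC (Ov BK BK_eq BK_zero BK_zero' BK_meas slice_open Den Ext BK_le BK_bound
  BK_diff)

variable {E : Type} [NormedAddCommGroup E] [NormedSpace ℂ E] [FiniteDimensional ℂ E]

/-- a measurable family of bounded holomorphic functions on `D` -/
structure Bdd (D : Set (ℂ × E)) (A : Set ℂ) (M : ℝ) (e : ℂ → ℂ × E → ℂ) : Prop where
  meas : ∀ y : E, Measurable (fun q : ℂ × ℂ => e q.1 (q.2, y))
  diff : ∀ ζ ∈ A, DifferentiableOn ℂ (e ζ) D
  bd : ∀ ζ ∈ A, ∀ p ∈ D, ‖e ζ p‖ ≤ M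

theorem Bdd.ext {D : Set (ℂ × E)} {A : Set ℂ} {M : ℝ} {e : ℂ → ℂ × E → ℂ} (h : Bdd D A M e) :
    Ext D A (fun p => (e p.1 p)⁻¹) M e :=
  ⟨h.meas, fun ζ _ y _ => (inv_inv _).symm, h.diff, h.bd⟩

/-- the solution -/
noncomputable def VJ {ι : Type} (D : Set (ℂ × E)) (e : ℂ → ℂ × E → ℂ) (S : Finset ι) (a : ι → ℂ)
    (R : ι → Set ℂ) (μ : ℂ → ℂ) (p : ℂ × E) : ℂ := CT (BK D e S a R μ p.2) p.1

section

variable {D : Set (ℂ × E)} {A : Set ℂ} {e : ℂ → ℂ × E → ℂ}
variable {ι : Type} {S : Finset ι} {a : ι → ℂ} {R : ι → Set ℂ} {Cp : ℝ}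

theorem VJ_bound (hr : Ov D) (hF : Fam S a R Cp) {μ : ℂ → ℂ} {K M : ℝ}
    (hB : Bdd D A M e) (hM0 : 0 ≤ M) (hD : Den A S a R μ K) {p : ℂ × E} (hp : p ∈ D) :
    ‖VJ D e S a R μ p‖ ≤ 2160 * Real.exp Cp * K * M := by
  classical
  have hX := hB.ext
  have hK0 := hD.hK0
  obtain ⟨w, y⟩ := p
  have hw : 0 < w.im := hr.im _ hp
  set g : ι → ℝ := fun k => al (a k) w *
    Real.exp (-∑ j ∈ S.filter (fun j => (a j).im ≤ (a k).im), al (a j) w) with hg
  set c : ι → ℝ := fun k => K / (a k).im * M * (6 * (a k).im / ‖w - starRingEnd ℂ (a k)‖ *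
    (Real.exp Cp *
      Real.exp (-∑ j ∈ S.filter (fun j => (a j).im ≤ (a k).im), al (a j) w))) with hc
  have hc0 : ∀ k ∈ S, 0 ≤ c k := by
    intro k hk
    have := hF.ha k hk
    simp only [hc]
    positivity
  have hint : ∀ k, Integrable ((ball (a k) (5 * (a k).im)).indicator
      (fun ζ => c k * ‖w - ζ‖⁻¹)) := by
    intro k
    refine (integrable_indicator_iff measurableSet_ball).2 ?_
    refine Integrable.const_mul ?_ _
    refine (inv_ball_int w (‖w - a k‖ + 5 * (a k).im)).mono_set (ball_subset_ball' ?_)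
    rw [dist_comm, dist_eq_norm]
    linarith
  have h1 : ∀ ζ, ‖BK D e S a R μ y ζ w / (w - ζ)‖ ≤
      ∑ k ∈ S, (ball (a k) (5 * (a k).im)).indicator (fun ζ => c k * ‖w - ζ‖⁻¹) ζ := by
    intro ζ
    have hnn : ∀ k ∈ S, 0 ≤ (ball (a k) (5 * (a k).im)).indicator
        (fun ζ => c k * ‖w - ζ‖⁻¹) ζ := fun k hk =>
      indicator_nonneg (fun _ _ => mul_nonneg (hc0 k hk) (by positivity)) _
    by_cases h : ∀ k ∈ S, ζ ∉ R k
    · rw [BK_zero h, zero_div, norm_zero]
      exact Finset.sum_nonneg hnn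
    · push Not at h
      obtain ⟨k, hk, hζ⟩ := h
      refine le_trans ?_ (Finset.single_le_sum hnn hk)
      have hak := hF.ha k hk
      have hmem : ζ ∈ ball (a k) (5 * (a k).im) := by
        rw [mem_ball, dist_eq_norm]
        have := (hF.hR k hk ζ hζ).2
        linarith
      rw [indicator_of_mem hmem, norm_div, div_eq_mul_inv]
      refine mul_le_mul_of_nonneg_right ?_ (by positivity)
      refine (BK_le hr hF hX hM0 hD hk hζ hp).trans ?_
      simp only [hc]
      have := Wk_le hF hk hζ hw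
      gcongr
  have h2 : ‖∫ ζ, BK D e S a R μ y ζ w / (w - ζ)‖ ≤
      ∑ k ∈ S, c k * (360 * Real.pi * ((a k).im ^ 2 / ‖w - starRingEnd ℂ (a k)‖)) := by
    refine (norm_integral_le_of_norm_le (integrable_finsetSum S (fun k _ => hint k))
      (Eventually.of_forall h1)).trans ?_
    rw [integral_finsetSum S (fun k _ => hint k)]
    refine Finset.sum_le_sum (fun k hk => ?_)
    rw [integral_indicator measurableSet_ball, integral_const_mul]
    exact mul_le_mul_of_nonneg_left (ball_int (hF.ha k hk) hw) (hc0 k hk)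
  have h3 : ∀ k ∈ S, c k * (360 * Real.pi * ((a k).im ^ 2 / ‖w - starRingEnd ℂ (a k)‖)) =
      Real.pi * (2160 * Real.exp Cp * K * M) * g k := by
    intro k hk
    have hak := hF.ha k hk
    have hdk := den_pos hak hw.le
    simp only [hc, hg, al]
    field_simp
    ring
  rw [Finset.sum_congr rfl h3, ← Finset.mul_sum] at h2
  have h4 : ∑ k ∈ S, g k ≤ 1 := by
    have h5 := Cor.exp_sum_le S (fun k => -(a k).im) (fun k => al (a k) w)
      (fun k _ => al_nonneg _ _)
    have h6 : ∀ k, S.filter (fun j => -(a k).im ≤ -(a j).im) =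
        S.filter (fun j => (a j).im ≤ (a k).im) := by
      intro k
      refine Finset.filter_congr (fun j _ => ?_)
      exact neg_le_neg_iff
    simp only [h6] at h5
    refine h5.trans ?_
    have := Real.exp_pos (-∑ j ∈ S, al (a j) w)
    linarith
  simp only [VJ, CT]
  rw [norm_mul, norm_div, norm_one, Complex.norm_real, Real.norm_of_nonneg Real.pi_pos.le]
  have hpi := Real.pi_pos
  calc 1 / Real.pi * ‖∫ ζ, BK D e S a R μ y ζ w / (w - ζ)‖
      ≤ 1 / Real.pi * (Real.pi * (2160 * Real.exp Cp * K * M) * 1) := by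
        gcongr
        refine h2.trans ?_
        gcongr
    _ = _ := by field_simp

theorem VJ_weak (hr : Ov D) (hF : Fam S a R Cp) {μ : ℂ → ℂ} {K M : ℝ}
    (hB : Bdd D A M e) (hM0 : 0 ≤ M) (hD : Den A S a R μ K) (y : E) :
    WD {w : ℂ | (w, y) ∈ D} (fun w => VJ D e S a R μ (w, y)) (fun w => μ w * e w (w, y)) := by
  have hX := hB.ext
  obtain ⟨ρ, M', hρ, hM', hb⟩ := BK_bound hr hF hX hM0 hD
  have hmeas := fun y => BK_meas hr hF hD.hμ hX.meas y
  have hopen : ∀ y : E, IsOpen {w : ℂ | (w, y) ∈ D} := fun y => slice_open hr y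
  have h1 := CT_weak (hopen y) hρ hM' (hmeas y) (fun ζ w hw => by
    have h2 := BK_diff hr hF hX hM0 hD ζ (w := w) (y := y) hw
    have h3 : DifferentiableAt ℂ (fun w : ℂ => (w, y)) w :=
      differentiableAt_id.prodMk (differentiableAt_const _)
    exact (DifferentiableAt.comp (g := fun p : ℂ × E => BK D e S a R μ p.2 ζ p.1) w h2
      h3).differentiableWithinAt) (fun ζ w => hb y ζ w)
  refine h1.congr (hopen y) (fun _ _ => rfl) (fun z hz => ?_)
  have hz0 : 0 < z.im := hr.im _ hz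
  by_cases h : ∀ k ∈ S, z ∉ R k
  · rw [BK_zero h, hD.h0 z h, zero_mul]
  · push Not at h
    obtain ⟨k, hk, hζ⟩ := h
    rw [BK_eq (D := D) hF hk hζ (show (z, y) ∈ D from hz), Wk_self hF hk hz0, mul_one]

theorem VJ_diff2 (hr : Ov D) (hF : Fam S a R Cp) {μ : ℂ → ℂ} {K M : ℝ}
    (hB : Bdd D A M e) (hM0 : 0 ≤ M) (hD : Den A S a R μ K) (w : ℂ) :
    DifferentiableOn ℂ (fun y : E => VJ D e S a R μ (w, y)) {y | (w, y) ∈ D} := by
  have hX := hB.ext
  obtain ⟨ρ, M', hρ, hM', hb⟩ := BK_bound hr hF hX hM0 hD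
  have hmeas := fun y => BK_meas hr hF hD.hμ hX.meas y
  have hO : IsOpen {y : E | (w, y) ∈ D} :=
    hr.op.preimage (by fun_prop : Continuous fun y : E => (w, y))
  have h1 := HP.differentiableOn_integral (X := E) (E := ℂ) volume
    (fun ζ y => BK D e S a R μ y ζ w / (w - ζ)) {y : E | (w, y) ∈ D} hO
    (fun y _ => (B_int (hmeas y) (fun ζ w => hb y ζ w) w w).aestronglyMeasurable)
    (fun ζ y hy => by
      have h2 := BK_diff hr hF hX hM0 hD ζ (w := w) (y := y) hy
      have h3 : DifferentiableAt ℂ (fun y : E => (w, y)) y :=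
        (differentiableAt_const _).prodMk differentiableAt_id
      have h4 := DifferentiableAt.comp (g := fun p : ℂ × E => BK D e S a R μ p.2 ζ p.1) y h2 h3
      simp only [div_eq_mul_inv]
      exact (h4.mul_const _).differentiableWithinAt)
    (fun ζ => (ball (0 : ℂ) ρ).indicator (fun _ => M') ζ * ‖w - ζ‖⁻¹) (dom_int w ρ M')
    (fun ζ y _ => by
      rw [norm_div, div_eq_mul_inv]
      exact mul_le_mul_of_nonneg_right (hb y ζ w) (by positivity))
  exact h1.const_mul _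

/-- the part of the domain where the density vanishes -/
theorem VJ_holo (hr : Ov D) (hF : Fam S a R Cp) {μ : ℂ → ℂ} {K M : ℝ}
    (hB : Bdd D A M e) (hM0 : 0 ≤ M) (hD : Den A S a R μ K) {O : Set ℂ} (hO : IsOpen O)
    (h0 : ∀ w ∈ O, 0 < w.im → μ w = 0) :
    DifferentiableOn ℂ (VJ D e S a R μ) {p | p ∈ D ∧ p.1 ∈ O} := by
  have hDO : IsOpen {p : ℂ × E | p ∈ D ∧ p.1 ∈ O} := hr.op.inter (hO.preimage continuous_fst)
  refine Pool.Agent.H788R3.Cor2.osgood2 hDO
    (fun p hp => VJ_bound hr hF hB hM0 hD hp.1) ?_ ?_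
  · intro y
    have h1 := VJ_weak hr hF hB hM0 hD y
    have hop : IsOpen {w : ℂ | (w, y) ∈ {p : ℂ × E | p ∈ D ∧ p.1 ∈ O}} :=
      hDO.preimage (by fun_prop : Continuous fun w : ℂ => (w, y))
    have h2 : WD {w : ℂ | (w, y) ∈ {p : ℂ × E | p ∈ D ∧ p.1 ∈ O}}
        (fun w => VJ D e S a R μ (w, y)) (fun w => μ w * e w (w, y)) := by
      refine ⟨h1.cont.mono (fun w hw => hw.1), h1.li.mono_set (fun w hw => hw.1), ?_⟩
      intro φ hφ hc hs
      exact h1.weak φ hφ hc (hs.trans (fun w hw => hw.1))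
    refine h2.holo hop ?_
    intro w hw
    have hw' : (w, y) ∈ D ∧ w ∈ O := hw
    rw [h0 w hw'.2 (hr.im _ hw'.1), zero_mul]
  · intro w
    exact (VJ_diff2 hr hF hB hM0 hD w).mono (fun y hy => hy.1)

/-- joint measurability -/
theorem VJ_meas [MeasurableSpace E] [BorelSpace E] [SecondCountableTopology E]
    {Θ : Type} [MeasurableSpace Θ] (hr : Ov D) (hF : Fam S a R Cp)
    {μ : ℂ → ℂ} (hμ : Measurable μ) {e : Θ → ℂ → ℂ × E → ℂ}
    (he : Measurable (fun q : Θ × ℂ × (ℂ × E) => e q.1 q.2.1 q.2.2)) :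
    Measurable (fun q : Θ × (ℂ × E) => VJ D (e q.1) S a R μ q.2) := by
  classical
  set T : Set (ℂ × ℂ) := {p | 0 < p.1.im ∧ 0 < p.2.im} with hT
  have hTo : IsOpen T := (isOpen_lt continuous_const (Complex.continuous_im.comp continuous_fst)).inter
    (isOpen_lt continuous_const (Complex.continuous_im.comp continuous_snd))
  have key : Measurable (fun x : (Θ × (ℂ × E)) × ℂ =>
      BK D (e x.1.1) S a R μ x.1.2.2 x.2 x.1.2.1 / (x.1.2.1 - x.2)) := by
    have hw : Measurable (fun x : (Θ × (ℂ × E)) × ℂ => x.1.2.1) := by fun_prop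
    refine Measurable.div ?_ (hw.sub measurable_snd)
    unfold BK
    refine Finset.measurable_fun_sum _ (fun k hk => ?_)
    have hm2 : Measurable (T.indicator (fun p : ℂ × ℂ => Wk S a k p.1 p.2)) := by
      rw [← Set.piecewise_eq_indicator]
      exact ContinuousOn.measurable_piecewise (Wk_cont hF hk) continuousOn_const hTo.measurableSet
    set Tk : Set ((Θ × (ℂ × E)) × ℂ) := {x | x.2 ∈ R k ∧ x.1.2 ∈ D} with hTk
    have hTm : MeasurableSet Tk := by
      refine MeasurableSet.inter ?_ ?_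
      · exact measurable_snd (hF.hm k hk)
      · have h1 : Measurable (fun x : (Θ × (ℂ × E)) × ℂ => x.1.2) := by fun_prop
        exact h1 hr.op.measurableSet
    have heq : (fun x : (Θ × (ℂ × E)) × ℂ => ((R k) ×ˢ {w : ℂ | (w, x.1.2.2) ∈ D}).indicator
        (fun p : ℂ × ℂ => μ p.1 * e x.1.1 p.1 (p.2, x.1.2.2) * Wk S a k p.1 p.2)
          (x.2, x.1.2.1)) =
        Tk.indicator (fun x => μ x.2 * e x.1.1 x.2 x.1.2 *
          T.indicator (fun p : ℂ × ℂ => Wk S a k p.1 p.2) (x.2, x.1.2.1)) := by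
      funext x
      by_cases hx : x ∈ Tk
      · have h1 : (x.2, x.1.2.1) ∈ (R k) ×ˢ {w : ℂ | (w, x.1.2.2) ∈ D} := ⟨hx.1, hx.2⟩
        have h2 : (x.2, x.1.2.1) ∈ T := ⟨(hF.hR k hk _ hx.1).1, hr.im _ hx.2⟩
        rw [indicator_of_mem hx, indicator_of_mem h1, indicator_of_mem h2]
      · have h1 : (x.2, x.1.2.1) ∉ (R k) ×ˢ {w : ℂ | (w, x.1.2.2) ∈ D} := fun h => hx ⟨h.1, h.2⟩
        rw [indicator_of_notMem hx, indicator_of_notMem h1]
    rw [heq]
    refine Measurable.indicator ?_ hTm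
    have h3 : Measurable (fun x : (Θ × (ℂ × E)) × ℂ => e x.1.1 x.2 x.1.2) := by
      have h4 : Measurable (fun x : (Θ × (ℂ × E)) × ℂ => (x.1.1, x.2, x.1.2)) := by fun_prop
      exact he.comp h4
    have h5 : Measurable (fun x : (Θ × (ℂ × E)) × ℂ => (x.2, x.1.2.1)) := by fun_prop
    exact ((hμ.comp measurable_snd).mul h3).mul (hm2.comp h5)
  have h1 := (key.stronglyMeasurable.integral_prod_right' (ν := (volume : Measure ℂ))).measurable
  exact h1.const_mul (1 / Real.pi : ℂ)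

end

end Pool.Agent.Y263.LF
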