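import Mathlib
import Pool.Agent.H788R3.Cor2.Base
import Pool.Agent.Y263.LF.Op

/-!
Balls, linear forms, orthogonal projections and the holomorphic retractions of a ball onto its
affine slices.
-/

set_option autoImplicit false
set_option linter.unusedSectionVars false

open MeasureTheory Metric Set Filter Topology Complex
open scoped ContDiff

namespace Pool.Agent.Y263.LF

open Pool.Agent.H788R3.Cor2 (cy yc cy_mem cy_mem' cy_diff cy_diffAt cy_yc yc_im yc_diff)

/-- the Cayley transform -/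
theorem cy_lt {r : ℝ} (hr0 : 0 < r) {w : ℂ} (hw : 0 < w.im) : ‖cy r w‖ < r := by
  unfold cy
  rw [norm_mul, Complex.norm_real, Real.norm_of_nonneg hr0.le, norm_div]
  have h1 : 0 < ‖w + I‖ := by
    rw [norm_pos_iff]
    intro h
    have := congrArg Complex.im h
    simp at this
    linarith
  have h2 : ‖w - I‖ ^ 2 < ‖w + I‖ ^ 2 := by
    rw [Complex.sq_norm, Complex.sq_norm, Complex.normSq_apply, Complex.normSq_apply]
    simp only [Complex.sub_re, Complex.sub_im, Complex.add_re, Complex.add_im, Complex.I_re,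
      Complex.I_im]
    nlinarith
  have h3 : ‖w - I‖ < ‖w + I‖ := lt_of_pow_lt_pow_left₀ 2 h1.le h2
  have h4 : ‖w - I‖ / ‖w + I‖ < 1 := (div_lt_one h1).2 h3
  calc r * (‖w - I‖ / ‖w + I‖) < r * 1 := by gcongr
    _ = r := mul_one r

theorem yc_cy {r : ℝ} (hr0 : 0 < r) {w : ℂ} (hw : 0 < w.im) : yc r (cy r w) = w := by
  have h1 : w + I ≠ 0 := by
    intro h
    have := congrArg Complex.im h
    simp at this
    linarith
  have hr : (r : ℂ) ≠ 0 := by exact_mod_cast hr0.ne'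
  unfold yc cy
  have h2 : (r : ℂ) * ((w - I) / (w + I)) / r = (w - I) / (w + I) := by
    field_simp
  rw [h2]
  have h3 : 1 - (w - I) / (w + I) = 2 * I / (w + I) := by
    field_simp
    ring
  have h4 : 1 + (w - I) / (w + I) = 2 * w / (w + I) := by
    field_simp
    ring
  rw [h3, h4]
  have hI : (I : ℂ) ≠ 0 := Complex.I_ne_zero
  field_simp

theorem cy_meas (r : ℝ) : Measurable (cy r) := by
  unfold cy
  fun_prop

theorem yc_meas (r : ℝ) : Measurable (yc r) := by
  unfold yc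
  fun_prop

variable {X : Type} [NormedAddCommGroup X] [InnerProductSpace ℂ X]

/-- orthogonal projections -/
structure OP (P : X →L[ℂ] X) : Prop where
  idem : ∀ x, P (P x) = P x
  symm : ∀ x y, inner ℂ (P x) y = (inner ℂ x (P y) : ℂ)

theorem OP.orth {P : X →L[ℂ] X} (h : OP P) {p : X} (hp : P p = 0) (x : X) :
    (inner ℂ p (P x) : ℂ) = 0 := by
  rw [← h.symm, hp, inner_zero_left]

theorem OP.normsq {P : X →L[ℂ] X} (h : OP P) {p : X} (hp : P p = 0) (x : X) :
    ‖p + P x‖ ^ 2 = ‖p‖ ^ 2 + ‖P x‖ ^ 2 := by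
  rw [norm_add_sq (𝕜 := ℂ), h.orth hp]
  simp

theorem OP.sub {P : X →L[ℂ] X} (h : OP P) (x : X) : P (x - P x) = 0 := by
  rw [map_sub, h.idem, sub_self]

theorem OP.pyth {P : X →L[ℂ] X} (h : OP P) (x : X) :
    ‖x‖ ^ 2 = ‖x - P x‖ ^ 2 + ‖P x‖ ^ 2 := by
  have := h.normsq (h.sub x) x
  rwa [sub_add_cancel] at this

/-- the identity -/
theorem OP.id : OP (ContinuousLinearMap.id ℂ X) := ⟨fun _ => rfl, fun _ _ => rfl⟩

/-- the unit vector for the linear form -/
noncomputable def eV (a : X) : X := ((‖a‖ : ℂ) ^ 2)⁻¹ • a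

/-- the projection orthogonal to `a` -/
noncomputable def PQ (P : X →L[ℂ] X) (a : X) : X →L[ℂ] X :=
  P - (innerSL ℂ a).smulRight (eV a)

theorem PQ_apply (P : X →L[ℂ] X) (a x : X) : PQ P a x = P x - (inner ℂ a x : ℂ) • eV a := by
  simp [PQ]

theorem inner_eV {a : X} (ha : a ≠ 0) : (inner ℂ a (eV a) : ℂ) = 1 := by
  unfold eV
  rw [inner_smul_right, inner_self_eq_norm_sq_to_K]
  have h1 : ((‖a‖ : ℂ)) ≠ 0 := by
    have := norm_ne_zero_iff.2 ha
    exact_mod_cast this
  have h2 : ((RCLike.ofReal ‖a‖ : ℂ)) = (‖a‖ : ℂ) := rfl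
  rw [h2]
  field_simp

section

variable {P : X →L[ℂ] X} {u : X}

theorem P_eV (h : OP P) : P (eV (P u)) = eV (P u) := by
  unfold eV
  rw [map_smul, h.idem]

theorem inner_Pu (h : OP P) (x : X) : (inner ℂ (P u) x : ℂ) = inner ℂ u (P x) := h.symm u x

theorem u_eV (h : OP P) (ha : P u ≠ 0) : (inner ℂ u (eV (P u)) : ℂ) = 1 := by
  rw [← P_eV h, ← h.symm, inner_eV ha]

theorem Pu_PQ (h : OP P) (ha : P u ≠ 0) (x : X) : (inner ℂ (P u) (PQ P (P u) x) : ℂ) = 0 := by
  rw [PQ_apply, inner_sub_right, inner_smul_right, inner_eV ha, ← h.symm, h.idem]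
  ring

theorem P_PQ (h : OP P) (x : X) : P (PQ P (P u) x) = PQ P (P u) x := by
  rw [PQ_apply, map_sub, map_smul, h.idem, P_eV h]

theorem u_PQ (h : OP P) (ha : P u ≠ 0) (x : X) : (inner ℂ u (PQ P (P u) x) : ℂ) = 0 := by
  rw [← P_PQ h, ← h.symm, Pu_PQ h ha]

theorem PQ_eV (h : OP P) (ha : P u ≠ 0) : PQ P (P u) (eV (P u)) = 0 := by
  rw [PQ_apply, inner_eV ha, P_eV h, one_smul, sub_self]

theorem PQ_zero (h : OP P) {p : X} (hp : P p = 0) : PQ P (P u) p = 0 := by
  rw [PQ_apply, hp, inner_Pu h, hp, inner_zero_right, zero_smul, sub_zero]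

theorem OP.PQ (h : OP P) (ha : P u ≠ 0) : OP (PQ P (P u)) := by
  refine ⟨fun x => ?_, fun x y => ?_⟩
  · rw [PQ_apply, P_PQ h, Pu_PQ h ha, zero_smul, sub_zero]
  · rw [PQ_apply, PQ_apply, inner_sub_left, inner_sub_right, inner_smul_left, inner_smul_right,
      h.symm]
    congr 1
    unfold eV
    rw [inner_smul_left, inner_smul_right, map_inv₀, map_pow, Complex.conj_ofReal, inner_conj_symm]
    ring

end

end Pool.Agent.Y263.LF
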