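import Mathlib
import Pool.Agent.Y263.LF.Ball

/-!
The sets where functions of linear forms are small; the statement of the extension lemma and its
base case.
-/

set_option autoImplicit false
set_option linter.unusedSectionVars false

open MeasureTheory Metric Set Filter Topology Complex
open scoped ContDiff

namespace Pool.Agent.Y263.LF

section

variable {X : Type} [NormedAddCommGroup X] [InnerProductSpace ℂ X] {κ : Type} {N : ℕ}

/-- the set where the functions attached to the forms in `I` are small -/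
def Dom (u : κ → X) (f : κ → Fin N → ℂ → ℂ) (r : ℝ) (I : Finset κ) (ε : ℝ) : Set X :=
  {z | ‖z‖ < r ∧ ∀ k ∈ I, ∀ i, ‖f k i (inner ℂ (u k) z)‖ < ε}

/-- the data -/
structure Dat (u : κ → X) (f : κ → Fin N → ℂ → ℂ) (r : ℝ) : Prop where
  r0 : 0 < r
  r1 : r < 1
  u1 : ∀ k, ‖u k‖ ≤ 1
  fd : ∀ k i, DifferentiableOn ℂ (f k i) (ball 0 1)
  fb : ∀ k i, ∀ z ∈ ball (0 : ℂ) 1, ‖f k i z‖ ≤ 1
  fm : ∀ k i, Measurable (f k i)

variable {u : κ → X} {f : κ → Fin N → ℂ → ℂ} {r ε : ℝ} {I : Finset κ}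

theorem Dat.lt (h : Dat u f r) (k : κ) {z : X} (hz : ‖z‖ < r) : ‖(inner ℂ (u k) z : ℂ)‖ < r := by
  refine lt_of_le_of_lt (norm_inner_le_norm _ _) ?_
  have := h.u1 k
  calc ‖u k‖ * ‖z‖ ≤ 1 * ‖z‖ := by gcongr
    _ < r := by rwa [one_mul]

theorem Dat.mem (h : Dat u f r) (k : κ) {z : X} (hz : ‖z‖ < r) :
    (inner ℂ (u k) z : ℂ) ∈ ball (0 : ℂ) 1 := by
  rw [mem_ball_zero_iff]
  exact (h.lt k hz).trans h.r1

theorem Dat.diffAt (h : Dat u f r) (k : κ) (i : Fin N) {z : X} (hz : ‖z‖ < r) :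
    DifferentiableAt ℂ (fun z : X => f k i (inner ℂ (u k) z)) z := by
  have h1 : DifferentiableAt ℂ (f k i) (inner ℂ (u k) z) :=
    (h.fd k i).differentiableAt (isOpen_ball.mem_nhds (h.mem k hz))
  have h2 : DifferentiableAt ℂ (fun z : X => (inner ℂ (u k) z : ℂ)) z :=
    (innerSL ℂ (u k)).differentiableAt
  exact DifferentiableAt.comp (g := f k i) z h1 h2

theorem Dat.open (h : Dat u f r) : IsOpen (Dom u f r I ε) := by
  rw [isOpen_iff_mem_nhds]
  rintro z ⟨hz, hzi⟩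
  have h1 : ∀ᶠ y in 𝓝 z, ∀ k ∈ I, ∀ i, ‖f k i (inner ℂ (u k) y)‖ < ε := by
    rw [Filter.eventually_all_finset]
    intro k hk
    rw [Filter.eventually_all]
    intro i
    exact (h.diffAt k i hz).continuousAt.norm.eventually (gt_mem_nhds (hzi k hk i))
  have h2 : ∀ᶠ y in 𝓝 z, ‖y‖ < r := continuous_norm.continuousAt.eventually (gt_mem_nhds hz)
  filter_upwards [h1, h2] with y hy1 hy2
  exact ⟨hy2, hy1⟩

theorem Dom_mono {ε' : ℝ} (h : ε' ≤ ε) : Dom u f r I ε' ⊆ Dom u f r I ε :=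
  fun _ hz => ⟨hz.1, fun k hk i => lt_of_lt_of_le (hz.2 k hk i) h⟩

theorem Dom_sub {J : Finset κ} (h : I ⊆ J) : Dom u f r J ε ⊆ Dom u f r I ε :=
  fun _ hz => ⟨hz.1, fun k hk i => hz.2 k (h hk) i⟩

theorem mem_insert_iff [DecidableEq κ] {k : κ} {z : X} :
    z ∈ Dom u f r (insert k I) ε ↔
      z ∈ Dom u f r I ε ∧ ∀ i, ‖f k i (inner ℂ (u k) z)‖ < ε := by
  constructor
  · rintro ⟨h1, h2⟩
    exact ⟨⟨h1, fun j hj => h2 j (Finset.mem_insert_of_mem hj)⟩,
      h2 k (Finset.mem_insert_self _ _)⟩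
  · rintro ⟨⟨h1, h2⟩, h3⟩
    refine ⟨h1, fun j hj => ?_⟩
    rcases Finset.mem_insert.1 hj with rfl | hj
    · exact h3
    · exact h2 j hj

end

/-- extension of bounded holomorphic functions from slices, with a loss of the level -/
def ExtP (N m : ℕ) (ε ε' C : ℝ) : Prop :=
  ∀ (X : Type) [NormedAddCommGroup X] [InnerProductSpace ℂ X] [FiniteDimensional ℂ X]
    [MeasurableSpace X] [BorelSpace X] (κ : Type) (u : κ → X) (f : κ → Fin N → ℂ → ℂ) (r : ℝ),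
    Dat u f r → ∀ (I : Finset κ), I.card = m → ∀ (Θ : Type) [MeasurableSpace Θ]
    (P : X →L[ℂ] X), OP P → ∀ (p : Θ → X), Measurable p → (∀ θ, P (p θ) = 0) →
    ∀ (v : Θ → X → ℂ) (M : ℝ), 0 ≤ M → Measurable (fun q : Θ × X => v q.1 q.2) →
    (∀ θ, DifferentiableOn ℂ (fun x => v θ (p θ + P x)) {x | p θ + P x ∈ Dom u f r I ε}) →
    (∀ θ z, z - P z = p θ → z ∈ Dom u f r I ε → ‖v θ z‖ ≤ M) →
    ∃ F : Θ → X → ℂ, Measurable (fun q : Θ × X => F q.1 q.2) ∧
      (∀ θ, DifferentiableOn ℂ (F θ) (Dom u f r I ε')) ∧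
      (∀ θ, ∀ z ∈ Dom u f r I ε', ‖F θ z‖ ≤ C * M) ∧
      (∀ θ z, z - P z = p θ → z ∈ Dom u f r I ε' → F θ z = v θ z)

section

variable {X : Type} [NormedAddCommGroup X] [InnerProductSpace ℂ X]

/-- the retraction of the ball onto a slice -/
noncomputable def RT (P : X →L[ℂ] X) (r : ℝ) (p z : X) : X :=
  p + (((r : ℂ) ^ 2 - (‖p‖ : ℂ) ^ 2) / ((r : ℂ) ^ 2 - inner ℂ p z)) • P z

theorem RT_den {r : ℝ} (hr : 0 < r) {p z : X} (hp : ‖p‖ < r) (hz : ‖z‖ < r) :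
    (r : ℂ) ^ 2 - inner ℂ p z ≠ 0 := by
  intro h
  have h1 : (inner ℂ p z : ℂ) = (r : ℂ) ^ 2 := by linear_combination -h
  have h2 := norm_inner_le_norm (𝕜 := ℂ) p z
  rw [h1, norm_pow, Complex.norm_real, Real.norm_of_nonneg hr.le] at h2
  nlinarith [norm_nonneg p, norm_nonneg z]

theorem RT_diff {P : X →L[ℂ] X} {r : ℝ} (hr : 0 < r) {p : X} (hp : ‖p‖ < r) {z : X}
    (hz : ‖z‖ < r) : DifferentiableAt ℂ (RT P r p) z := by
  have h1 : DifferentiableAt ℂ (fun z : X => (inner ℂ p z : ℂ)) z := (innerSL ℂ p).differentiableAt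
  have h2 : DifferentiableAt ℂ
      (fun z : X => ((r : ℂ) ^ 2 - (‖p‖ : ℂ) ^ 2) / ((r : ℂ) ^ 2 - inner ℂ p z)) z := by
    have h3 : DifferentiableAt ℂ (fun z : X => (r : ℂ) ^ 2 - inner ℂ p z) z := h1.const_sub _
    simp only [div_eq_mul_inv]
    exact (h3.fun_inv (RT_den hr hp hz)).const_mul _
  exact (h2.fun_smul P.differentiableAt).const_add p

theorem RT_slice {P : X →L[ℂ] X} (hP : OP P) {r : ℝ} {p : X} (hp : P p = 0) (z : X) :
    RT P r p z - P (RT P r p z) = p := by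
  unfold RT
  rw [map_add, hp, map_smul, hP.idem]
  abel

theorem RT_id {P : X →L[ℂ] X} (hP : OP P) {r : ℝ} (hr : 0 < r) {p z : X} (hp : P p = 0)
    (hz : ‖z‖ < r) (hs : z - P z = p) : RT P r p z = z := by
  have h0 : z = p + P z := by rw [← hs, sub_add_cancel]
  have hpr : ‖p‖ < r := by
    have h1 := hP.pyth z
    rw [hs] at h1
    by_contra h
    push Not at h
    nlinarith [norm_nonneg p, norm_nonneg z, norm_nonneg (P z)]
  have h1 : (inner ℂ p z : ℂ) = (‖p‖ : ℂ) ^ 2 := by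
    rw [h0, inner_add_right, hP.orth hp, add_zero, inner_self_eq_norm_sq_to_K]
    rfl
  have h2 := RT_den hr hpr hz
  unfold RT
  rw [h1] at h2 ⊢
  rw [div_self h2, one_smul]
  exact h0.symm

theorem RT_lt {P : X →L[ℂ] X} (hP : OP P) {r : ℝ} (hr : 0 < r) {p z : X} (hp : P p = 0)
    (hpr : ‖p‖ < r) (hz : ‖z‖ < r) : ‖RT P r p z‖ < r := by
  set c : ℂ := ((r : ℂ) ^ 2 - (‖p‖ : ℂ) ^ 2) / ((r : ℂ) ^ 2 - inner ℂ p z) with hc
  have h1 : ‖RT P r p z‖ ^ 2 = ‖p‖ ^ 2 + ‖c‖ ^ 2 * ‖P z‖ ^ 2 := by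
    have := hP.normsq hp (c • z)
    rw [map_smul] at this
    unfold RT
    rw [← hc, this, norm_smul, mul_pow]
  set t : ℝ := ‖z - P z‖ with ht
  have h2 : ‖P z‖ ^ 2 = ‖z‖ ^ 2 - t ^ 2 := by
    have := hP.pyth z
    linarith
  have h3 : ‖(inner ℂ p z : ℂ)‖ ≤ ‖p‖ * t := by
    have h4 : (inner ℂ p z : ℂ) = inner ℂ p (z - P z) := by
      rw [inner_sub_right, hP.orth hp, sub_zero]
    rw [h4]
    exact norm_inner_le_norm _ _
  have ht0 : 0 ≤ t := norm_nonneg _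
  have htr : t < r := by
    by_contra h
    push Not at h
    nlinarith [norm_nonneg (P z), norm_nonneg z, sq_nonneg ‖P z‖]
  have hp0 : 0 ≤ ‖p‖ := norm_nonneg _
  have h4 : r ^ 2 - ‖p‖ * t ≤ ‖(r : ℂ) ^ 2 - inner ℂ p z‖ := by
    have h5 := norm_sub_norm_le ((r : ℂ) ^ 2) (inner ℂ p z)
    rw [norm_pow, Complex.norm_real, Real.norm_of_nonneg hr.le] at h5
    linarith
  have h40 : 0 < r ^ 2 - ‖p‖ * t := by nlinarith
  have h5 : ‖c‖ = (r ^ 2 - ‖p‖ ^ 2) / ‖(r : ℂ) ^ 2 - inner ℂ p z‖ := by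
    rw [hc, norm_div]
    congr 1
    rw [show (r : ℂ) ^ 2 - (‖p‖ : ℂ) ^ 2 = ((r ^ 2 - ‖p‖ ^ 2 : ℝ) : ℂ) by push_cast; ring,
      Complex.norm_real, Real.norm_of_nonneg]
    nlinarith
  have h6 : ‖c‖ ^ 2 * ‖P z‖ ^ 2 < r ^ 2 - ‖p‖ ^ 2 := by
    set d : ℝ := ‖(r : ℂ) ^ 2 - inner ℂ p z‖ with hd
    have hd0 : 0 < d := lt_of_lt_of_le h40 h4
    rw [h5, div_pow, div_mul_eq_mul_div, div_lt_iff₀ (by positivity), h2]
    have h7 : (r ^ 2 - ‖p‖ * t) ^ 2 ≤ d ^ 2 := by gcongr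
    have h8 : (r ^ 2 - ‖p‖ ^ 2) * (‖z‖ ^ 2 - t ^ 2) < (r ^ 2 - ‖p‖ * t) ^ 2 := by
      have h9 : 0 < r ^ 2 - ‖p‖ ^ 2 := by nlinarith
      have h10 : ‖z‖ ^ 2 < r ^ 2 := by
        have := norm_nonneg z
        nlinarith
      have h11 : (r ^ 2 - ‖p‖ ^ 2) * (‖z‖ ^ 2 - t ^ 2) < (r ^ 2 - ‖p‖ ^ 2) * (r ^ 2 - t ^ 2) := by
        gcongr
      nlinarith [mul_nonneg (sq_nonneg r) (sq_nonneg (‖p‖ - t))]
    have h9 : 0 < r ^ 2 - ‖p‖ ^ 2 := by nlinarith
    nlinarith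
  have h7 : ‖RT P r p z‖ ^ 2 < r ^ 2 := by rw [h1]; linarith
  exact lt_of_pow_lt_pow_left₀ 2 hr.le h7

end

/-- the base case -/
theorem extP_zero (N : ℕ) (ε : ℝ) : ExtP N 0 ε ε 1 := by
  intro X _ _ _ _ _ κ u f r hd I hI Θ _ P hP p hp hp0 v M hM hv hvd hvb
  classical
  have hr := hd.r0
  have hI0 : I = ∅ := Finset.card_eq_zero.1 hI
  subst hI0
  have hdom : ∀ z : X, ‖z‖ < r → z ∈ Dom u f r ∅ ε := fun z hz =>
    ⟨hz, fun k hk => absurd hk (Finset.notMem_empty _)⟩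
  refine ⟨fun θ z => if ‖p θ‖ < r then v θ (RT P r (p θ) z) else 0, ?_, ?_, ?_, ?_⟩
  · have h1 : Measurable (fun q : Θ × X => p q.1) := hp.comp measurable_fst
    have h2 : MeasurableSet {q : Θ × X | ‖p q.1‖ < r} := measurableSet_lt h1.norm measurable_const
    refine Measurable.ite h2 ?_ measurable_const
    have hP' : Measurable (fun q : Θ × X => P q.2) := P.continuous.measurable.comp measurable_snd
    have h3 : Measurable (fun q : Θ × X => RT P r (p q.1) q.2) := by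
      unfold RT
      have hi : Measurable (fun q : Θ × X => (inner ℂ (p q.1) q.2 : ℂ)) := h1.inner measurable_snd
      have hn : Measurable (fun q : Θ × X => ((‖p q.1‖ : ℝ) : ℂ)) :=
        Complex.measurable_ofReal.comp h1.norm
      exact h1.add (((measurable_const.sub (hn.pow_const 2)).div (measurable_const.sub hi)).smul hP')
    exact hv.comp (measurable_fst.prodMk h3)
  · intro θ z hz
    by_cases hθ : ‖p θ‖ < r
    · simp only [hθ, if_true]
      have h1 := RT_lt hP hr (hp0 θ) hθ hz.1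
      have h2 : RT P r (p θ) z = p θ + P (RT P r (p θ) z) := by
        exact sub_eq_iff_eq_add.1 (RT_slice hP (r := r) (hp0 θ) z)
      have h3 : DifferentiableAt ℂ (fun x => v θ (p θ + P x)) (RT P r (p θ) z) := by
        refine (hvd θ).differentiableAt ?_
        refine (hd.open.preimage (by fun_prop : Continuous fun x => p θ + P x)).mem_nhds ?_
        change p θ + P (RT P r (p θ) z) ∈ Dom u f r ∅ ε
        rw [← h2]
        exact hdom _ h1
      have h4 : DifferentiableAt ℂ (fun z => v θ (p θ + P (RT P r (p θ) z))) z :=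
        DifferentiableAt.comp (g := fun x => v θ (p θ + P x)) z h3 (RT_diff hr hθ hz.1)
      refine (h4.congr_of_eventuallyEq ?_).differentiableWithinAt
      refine Eventually.of_forall (fun y => ?_)
      have h5 : RT P r (p θ) y = p θ + P (RT P r (p θ) y) := by
        exact sub_eq_iff_eq_add.1 (RT_slice hP (r := r) (hp0 θ) y)
      change v θ (RT P r (p θ) y) = v θ (p θ + P (RT P r (p θ) y))
      rw [← h5]
    · simp only [hθ, if_false]
      exact differentiableWithinAt_const _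
  · intro θ z hz
    rw [one_mul]
    by_cases hθ : ‖p θ‖ < r
    · simp only [hθ, if_true]
      exact hvb θ _ (RT_slice hP (hp0 θ) z) (hdom _ (RT_lt hP hr (hp0 θ) hθ hz.1))
    · simp only [hθ, if_false, norm_zero]
      exact hM
  · intro θ z hs hz
    have hθ : ‖p θ‖ < r := by
      have h1 := hP.pyth z
      rw [hs] at h1
      have := hz.1
      by_contra h
      push Not at h
      nlinarith [norm_nonneg (p θ), norm_nonneg z, norm_nonneg (P z)]
    simp only [hθ, if_true]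
    rw [RT_id hP hr (hp0 θ) hz.1 hs]

end Pool.Agent.Y263.LF
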