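import Mathlib
import Pool.Agent.Y263.LF.Dom
import Pool.Agent.Y263.LF.Sol

/-!
The operator used in the induction step: solutions of the d-bar equations along the direction of a
linear form, from the extension of functions from the slices of the form.
-/

set_option autoImplicit false
set_option linter.unusedSectionVars false

open MeasureTheory Metric Set Filter Topology Complex
open scoped ContDiff

namespace Pool.Agent.Y263.LF

open Pool.Agent.H720R2 Pool.Agent.H720R2.HP
open Pool.Agent.H788R3.Cor2 (cy yc cy_mem cy_mem' cy_diff cy_diffAt cy_yc yc_im yc_diff osgood2)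
open Pool.Agent.Y263.SC (Ov slice_open Den AA den1')

section

variable {X : Type} [NormedAddCommGroup X] [InnerProductSpace ℂ X]

/-- the domain over the half plane -/
def DH (r : ℝ) (e : X) (Ω : Set X) : Set (ℂ × X) := {q | 0 < q.1.im ∧ cy r q.1 • e + q.2 ∈ Ω}

theorem zm_diff {r : ℝ} (hr0 : 0 < r) (hr1 : r < 1) (e : X) {q : ℂ × X} (hq : 0 < q.1.im) :
    DifferentiableAt ℂ (fun q : ℂ × X => cy r q.1 • e + q.2) q := by
  have h1 : DifferentiableAt ℂ (fun q : ℂ × X => cy r q.1) q :=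
    DifferentiableAt.comp (g := cy r) (f := fun q : ℂ × X => q.1) q (cy_diffAt hr0 hr1 hq)
      differentiableAt_fst
  exact (h1.smul_const e).add differentiableAt_snd

theorem DH_ov {r : ℝ} (hr0 : 0 < r) (hr1 : r < 1) (e : X) {Ω : Set X} (hΩ : IsOpen Ω) :
    Ov (DH r e Ω) := by
  refine ⟨?_, fun p hp => hp.1⟩
  rw [isOpen_iff_mem_nhds]
  rintro q ⟨hq, hq2⟩
  have h1 : ∀ᶠ p : ℂ × X in 𝓝 q, cy r p.1 • e + p.2 ∈ Ω :=
    (zm_diff hr0 hr1 e hq).continuousAt.eventually (hΩ.mem_nhds hq2)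
  have h2 : ∀ᶠ p : ℂ × X in 𝓝 q, 0 < p.1.im :=
    (isOpen_lt continuous_const (Complex.continuous_im.comp continuous_fst)).mem_nhds hq
  filter_upwards [h1, h2] with p hp1 hp2
  exact ⟨hp2, hp1⟩

variable {κ : Type} {N : ℕ} {u : κ → X} {f : κ → Fin N → ℂ → ℂ} {r : ℝ}

theorem Dat.cyd (hd : Dat u f r) (k : κ) (i : Fin N) :
    DifferentiableOn ℂ (fun w => f k i (cy r w)) {w : ℂ | -((1 - r ^ 2) / 16) < w.im} :=
  (hd.fd k i).comp (cy_diff hd.r0 hd.r1) (fun w hw => cy_mem hd.r0 hd.r1 hw)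

theorem Dat.cyd' (hd : Dat u f r) (k : κ) (i : Fin N) :
    DifferentiableOn ℂ (fun w => f k i (cy r w)) UH := by
  refine (hd.cyd k i).mono (fun w hw => ?_)
  have h1 : (0 : ℝ) < w.im := hw
  have h2 := hd.r0
  have h3 := hd.r1
  change -((1 - r ^ 2) / 16) < w.im
  nlinarith

theorem Dat.nice (hd : Dat u f r) (k : κ) (i : Fin N) :
    Nice (fun w => f k i (cy r w)) ((1 - r ^ 2) / 16) := by
  have h2 := hd.r0
  have h3 := hd.r1
  refine ⟨by nlinarith, hd.cyd k i, fun w hw => hd.fb k i _ (cy_mem hd.r0 hd.r1 ?_)⟩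
  have h1 : (0 : ℝ) ≤ w.im := hw
  nlinarith

theorem Dat.lim (hd : Dat u f r) (k : κ) (i : Fin N) : ∃ c : ℂ,
    Tendsto (fun w => f k i (cy r w)) (Bornology.cobounded ℂ ⊓ 𝓟 {w : ℂ | 0 ≤ w.im}) (𝓝 c) := by
  refine ⟨f k i ((r : ℂ) * 1), ?_⟩
  refine Tendsto.mono_left ?_ inf_le_left
  have hmem : (r : ℂ) * 1 ∈ ball (0 : ℂ) 1 := by
    rw [mem_ball_zero_iff, mul_one, Complex.norm_real, Real.norm_of_nonneg hd.r0.le]
    exact hd.r1
  have hc : ContinuousAt (f k i) ((r : ℂ) * 1) :=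
    ((hd.fd k i).differentiableAt (isOpen_ball.mem_nhds hmem)).continuousAt
  exact hc.tendsto.comp (TB.cay_tendsto.const_mul (r : ℂ))

end

section

variable {X : Type} [NormedAddCommGroup X] [InnerProductSpace ℂ X]

/-- the point of a slice over `w` -/
noncomputable def y0 (P : X →L[ℂ] X) (u p y : X) : X :=
  p - (inner ℂ u p : ℂ) • eV (P u) + PQ P (P u) y

theorem inner_y0 {P : X →L[ℂ] X} {u : X} (hP : OP P) (ha : P u ≠ 0) {p : X} (c : ℂ) (y : X) :
    (inner ℂ u (c • eV (P u) + y0 P u p y) : ℂ) = c := by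
  unfold y0
  rw [inner_add_right, inner_add_right, inner_sub_right, inner_smul_right, inner_smul_right,
    u_eV hP ha, u_PQ hP ha]
  ring

theorem slice_y0 {P : X →L[ℂ] X} {u : X} (hP : OP P) {p : X} (hp : P p = 0)
    (c : ℂ) (y : X) : (c • eV (P u) + y0 P u p y) - P (c • eV (P u) + y0 P u p y) = p := by
  unfold y0
  rw [map_add, map_add, map_sub, map_smul, map_smul, P_eV hP, hp, P_PQ hP]
  abel

theorem slice_y0' {P : X →L[ℂ] X} {u : X} (hP : OP P) (ha : P u ≠ 0) {p : X} (hp : P p = 0)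
    (c : ℂ) (y : X) :
    (c • eV (P u) + y0 P u p y) - PQ P (P u) (c • eV (P u) + y0 P u p y) =
      p + (c - inner ℂ u p) • eV (P u) := by
  unfold y0
  rw [map_add, map_add, map_sub, map_smul, map_smul, PQ_eV hP ha, PQ_zero hP hp, (hP.PQ ha).idem,
    sub_smul]
  simp only [smul_zero, sub_zero, zero_add]
  abel

theorem y0_eq {P : X →L[ℂ] X} {u : X} (hP : OP P) {p : X} (c : ℂ) (y : X) :
    c • eV (P u) + y0 P u p y =
      p + P ((c - inner ℂ u p) • eV (P u) + PQ P (P u) y) := by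
  unfold y0
  rw [map_add, map_smul, P_eV hP, P_PQ hP, sub_smul]
  abel

end

/-- **The operator along the direction of a linear form.** -/
theorem opStep {N m : ℕ} {ε ε₁ C₁ : ℝ} (H : ExtP N m ε ε₁ C₁) (hC₁ : 0 ≤ C₁) (hεε : ε₁ ≤ ε)
    {δ : ℝ} (hδ : δ < ε)
    {ε' C : ℝ} (hε' : 0 < ε') (hC : 0 ≤ C)
    {X : Type} [NormedAddCommGroup X] [InnerProductSpace ℂ X] [FiniteDimensional ℂ X]
    [MeasurableSpace X] [BorelSpace X] {κ : Type} [DecidableEq κ] {u : κ → X}
    {f : κ → Fin N → ℂ → ℂ} {r : ℝ} (hd : Dat u f r) {I : Finset κ} (hI : I.card = m) {k : κ}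
    {Θ : Type} [MeasurableSpace Θ] {P : X →L[ℂ] X} (hP : OP P) {p : Θ → X} (hp : Measurable p)
    (hp0 : ∀ θ, P (p θ) = 0) {v : Θ → X → ℂ} {M : ℝ} (hM : 0 ≤ M)
    (hv : Measurable (fun q : Θ × X => v q.1 q.2))
    (hvd : ∀ θ, DifferentiableOn ℂ (fun x => v θ (p θ + P x))
      {x | p θ + P x ∈ Dom u f r (insert k I) ε})
    (hvb : ∀ θ z, z - P z = p θ → z ∈ Dom u f r (insert k I) ε → ‖v θ z‖ ≤ M)
    (ha : P (u k) ≠ 0)
    {ι : Type} {S : Finset ι} {a : ι → ℂ} {R : ι → Set ℂ} {χ : Option (Fin N) → ℂ → ℂ}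
    (hcut : CutP (fun i w => f k i (cy r w)) δ ε' C S a R χ) :
    ∃ V : Fin N → Θ → ℂ × X → ℂ,
      (∀ i, Measurable (fun q : Θ × (ℂ × X) => V i q.1 q.2)) ∧
      (∀ i θ, ∀ q ∈ DH r (eV (P (u k))) (Dom u f r I ε₁),
        ‖V i θ q‖ ≤ 2160 * Real.exp C * (C / ε') * (C₁ * M)) ∧
      (∀ i θ y, WD {w | (w, y0 P (u k) (p θ) y) ∈ DH r (eV (P (u k))) (Dom u f r I ε₁)}
        (fun w => V i θ (w, y0 P (u k) (p θ) y))
        (fun w => mu1 (fun i w => f k i (cy r w)) S R χ i w *
          v θ (cy r w • eV (P (u k)) + y0 P (u k) (p θ) y))) ∧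
      (∀ i θ w, DifferentiableOn ℂ (fun y => V i θ (w, y))
        {y | (w, y) ∈ DH r (eV (P (u k))) (Dom u f r I ε₁)}) ∧
      (∀ i θ, ∀ O : Set ℂ, IsOpen O →
        (∀ w ∈ O, 0 < w.im → mu1 (fun i w => f k i (cy r w)) S R χ i w = 0) →
        DifferentiableOn ℂ (V i θ)
          {q | q ∈ DH r (eV (P (u k))) (Dom u f r I ε₁) ∧ q.1 ∈ O}) := by
  classical
  have hr0 := hd.r0
  have hr1 := hd.r1
  set e : X := eV (P (u k)) with he
  have hue : (inner ℂ (u k) e : ℂ) = 1 := u_eV hP ha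
  set P' : X →L[ℂ] X := PQ P (P (u k)) with hP'
  have hOP' : OP P' := hP.PQ ha
  set p' : Θ × ℂ → X := fun q => p q.1 + (q.2 - inner ℂ (u k) (p q.1)) • e with hp'
  set v' : Θ × ℂ → X → ℂ := fun q z => if ∀ i, ‖f k i q.2‖ < ε then v q.1 z else 0 with hv'
  have hp'm : Measurable p' := by
    have h1 : Measurable (fun q : Θ × ℂ => p q.1) := hp.comp measurable_fst
    have h2 : Measurable (fun q : Θ × ℂ => (inner ℂ (u k) (p q.1) : ℂ)) :=
      measurable_const.inner h1
    exact h1.add ((measurable_snd.sub h2).smul_const e)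
  have hp'0 : ∀ q, P' (p' q) = 0 := by
    intro q
    rw [hp', map_add, map_smul, PQ_eV hP ha, PQ_zero hP (hp0 _), smul_zero, add_zero]
  have hslice : ∀ q : Θ × ℂ, ∀ z, z - P' z = p' q →
      z - P z = p q.1 ∧ (inner ℂ (u k) z : ℂ) = q.2 := by
    intro q z hz
    have h1 : P (z - P' z) = (q.2 - inner ℂ (u k) (p q.1)) • e := by
      rw [hz, hp', map_add, hp0, map_smul, P_eV hP, zero_add]
    have h2 : z = p' q + P' z := by rw [← hz, sub_add_cancel]
    have h3 : P z = (q.2 - inner ℂ (u k) (p q.1)) • e + P' z := by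
      rw [map_sub, P_PQ hP] at h1
      rw [← h1, sub_add_cancel]
    constructor
    · rw [h3]
      nth_rewrite 1 [h2]
      simp only [hp']
      abel
    · rw [h2]
      simp only [hp']
      rw [inner_add_right, inner_add_right, inner_smul_right, hue, u_PQ hP ha]
      ring
  have hv'm : Measurable (fun q : (Θ × ℂ) × X => v' q.1 q.2) := by
    have h1 : MeasurableSet {q : (Θ × ℂ) × X | ∀ i, ‖f k i q.1.2‖ < ε} := by
      have h2 : {q : (Θ × ℂ) × X | ∀ i, ‖f k i q.1.2‖ < ε} =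
          ⋂ i, {q : (Θ × ℂ) × X | ‖f k i q.1.2‖ < ε} := by
        ext q
        simp
      rw [h2]
      refine MeasurableSet.iInter (fun i => ?_)
      have h3 : Measurable (fun q : (Θ × ℂ) × X => f k i q.1.2) :=
        (hd.fm k i).comp (measurable_snd.comp measurable_fst)
      exact measurableSet_lt h3.norm measurable_const
    refine Measurable.ite h1 ?_ measurable_const
    have h4 : Measurable (fun q : (Θ × ℂ) × X => (q.1.1, q.2)) := by fun_prop
    exact hv.comp h4
  obtain ⟨F, hFm, hFd, hFb, hFe⟩ := H X κ u f r hd I hI (Θ × ℂ) P' hOP' p' hp'm hp'0 v' M hM hv'm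
    (by
      rintro ⟨θ, ζ⟩
      by_cases hζ : ∀ i, ‖f k i ζ‖ < ε
      · have h1 : ∀ x, v' (θ, ζ) (p' (θ, ζ) + P' x) =
            v θ (p θ + P ((ζ - inner ℂ (u k) (p θ)) • e + P' x)) := by
          intro x
          simp only [hv']
          rw [if_pos hζ]
          congr 1
          rw [map_add, map_smul, P_eV hP, P_PQ hP]
          simp only [hp']
          abel
        have h2 : Differentiable ℂ (fun x => (ζ - inner ℂ (u k) (p θ)) • e + P' x) := by
          fun_prop
        have h3 : MapsTo (fun x => (ζ - inner ℂ (u k) (p θ)) • e + P' x)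
            {x | p' (θ, ζ) + P' x ∈ Dom u f r I ε} {x | p θ + P x ∈ Dom u f r (insert k I) ε} := by
          intro x hx
          have h4 : p θ + P ((ζ - inner ℂ (u k) (p θ)) • e + P' x) = p' (θ, ζ) + P' x := by
            rw [map_add, map_smul, P_eV hP, P_PQ hP]
            simp only [hp']
            abel
          change p θ + P ((ζ - inner ℂ (u k) (p θ)) • e + P' x) ∈ Dom u f r (insert k I) ε
          rw [h4, mem_insert_iff]
          refine ⟨hx, ?_⟩
          have h5 : (inner ℂ (u k) (p' (θ, ζ) + P' x) : ℂ) = ζ := by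
            simp only [hp']
            rw [inner_add_right, inner_add_right, inner_smul_right, hue, u_PQ hP ha]
            ring
          rw [h5]
          exact hζ
        have h5 := (hvd θ).comp h2.differentiableOn h3
        refine h5.congr (fun x _ => ?_)
        exact h1 x
      · have h1 : ∀ x, v' (θ, ζ) (p' (θ, ζ) + P' x) = 0 := by
          intro x
          simp only [hv']
          rw [if_neg hζ]
        simp only [h1]
        exact differentiableOn_const _)
    (by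
      rintro ⟨θ, ζ⟩ z hz hzD
      obtain ⟨h1, h2⟩ := hslice _ z hz
      by_cases hζ : ∀ i, ‖f k i ζ‖ < ε
      · simp only [hv']
        rw [if_pos hζ]
        refine hvb θ z h1 (mem_insert_iff.2 ⟨hzD, ?_⟩)
        rw [h2]
        exact hζ
      · simp only [hv']
        rw [if_neg hζ, norm_zero]
        exact hM)
  set D : Set (ℂ × X) := DH r e (Dom u f r I ε₁) with hD
  have hOv : Ov D := DH_ov hr0 hr1 e hd.open
  set fh : Fin N → ℂ → ℂ := fun i w => f k i (cy r w) with hfh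
  have hfhd : ∀ i, DifferentiableOn ℂ (fh i) UH := fun i => hd.cyd' k i
  set ef : Θ → ℂ → ℂ × X → ℂ := fun θ ζ q => F (θ, cy r ζ) (cy r q.1 • e + q.2) with hef
  have hefm : Measurable (fun q : Θ × ℂ × (ℂ × X) => ef q.1 q.2.1 q.2.2) := by
    have h1 : Measurable (fun q : Θ × ℂ × (ℂ × X) => cy r q.2.1) :=
      (cy_meas r).comp (measurable_fst.comp measurable_snd)
    have h2 : Measurable (fun q : Θ × ℂ × (ℂ × X) => cy r q.2.2.1) :=
      (cy_meas r).comp (measurable_fst.comp (measurable_snd.comp measurable_snd))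
    have h3 : Measurable (fun q : Θ × ℂ × (ℂ × X) => q.2.2.2) :=
      measurable_snd.comp (measurable_snd.comp measurable_snd)
    exact hFm.comp ((measurable_fst.prodMk h1).prodMk ((h2.smul_const e).add h3))
  have hB : ∀ θ, Bdd D (AA fh δ) (C₁ * M) (ef θ) := by
    intro θ
    refine ⟨fun y => ?_, fun ζ _ => ?_, fun ζ _ q hq => ?_⟩
    · have h1 : Measurable (fun q : ℂ × ℂ => (θ, q.1, (q.2, y))) := by fun_prop
      exact hefm.comp h1
    · intro q hq
      have h1 : DifferentiableAt ℂ (F (θ, cy r ζ)) (cy r q.1 • e + q.2) :=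
        (hFd _).differentiableAt (hd.open.mem_nhds hq.2)
      exact (DifferentiableAt.comp (g := F (θ, cy r ζ)) q h1
        (zm_diff hr0 hr1 e hq.1)).differentiableWithinAt
    · exact hFb _ _ hq.2
  have hden := fun i => den1' hcut hε' hC hfhd i
  have hCM : 0 ≤ C₁ * M := mul_nonneg hC₁ hM
  refine ⟨fun i θ q => VJ D (ef θ) S a R (mu1 fh S R χ i) q, ?_, ?_, ?_, ?_, ?_⟩
  · intro i
    exact VJ_meas hOv hcut.fam (hden i).hμ hefm
  · intro i θ q hq
    exact VJ_bound hOv hcut.fam (hB θ) hCM (hden i) hq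
  · intro i θ y
    refine (VJ_weak hOv hcut.fam (hB θ) hCM (hden i) (y0 P (u k) (p θ) y)).congr
      (slice_open hOv _) (fun _ _ => rfl) ?_
    intro w hw
    by_cases hmu : mu1 fh S R χ i w = 0
    · rw [hmu, zero_mul, zero_mul]
    · congr 1
      have hw0 : w ∈ UH := hw.1
      have h1 : db (χ none) w ≠ 0 := by
        intro h0
        apply hmu
        rw [mu1_eq hcut hw0, h0, mul_zero]
      have h2 : ∀ i, ‖f k i (cy r w)‖ < ε := fun i =>
        lt_of_le_of_lt (hcut.d_none hfhd hw0 (db_ne h1) i) hδ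
      have h3 := hFe (θ, cy r w) (cy r w • e + y0 P (u k) (p θ) y)
        (slice_y0' hP ha (hp0 θ) _ y) hw.2
      change v θ (cy r w • e + y0 P (u k) (p θ) y) = F (θ, cy r w) _
      rw [h3]
      simp only [hv']
      rw [if_pos h2]
  · intro i θ w
    exact VJ_diff2 hOv hcut.fam (hB θ) hCM (hden i) w
  · intro i θ O hO h0
    exact VJ_holo hOv hcut.fam (hB θ) hCM (hden i) hO h0

end Pool.Agent.Y263.LF
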