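import Mathlib
import Pool.Agent.Y263.LF.Step

/-!
The extension lemma: bounded holomorphic functions on the part of a slice where functions of
finitely many linear forms are small extend, with a loss of the level, with bounds.
-/

set_option autoImplicit false
set_option linter.unusedSectionVars false

open MeasureTheory Metric Set Filter Topology Complex
open scoped ContDiff

namespace Pool.Agent.Y263.LF

open Pool.Agent.H720R2 Pool.Agent.H720R2.HP
open Pool.Agent.H788R3.Cor2 (cy yc cy_mem cy_mem' cy_diff cy_diffAt cy_yc yc_im yc_diff osgood2)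
open Pool.Agent.H788R3.Cor3 (mul_C1)
open Pool.Agent.Y263.SC (Ov slice_open Den AA den1' Ov.UH)

section

variable {N : ℕ} {f : Fin N → ℂ → ℂ} {ε ε' C : ℝ} {ι : Type} {S : Finset ι} {a : ι → ℂ}
  {R : ι → Set ℂ} {χ : Option (Fin N) → ℂ → ℂ}

/-- where all functions are very small, the distinguished cutoff function is `1` -/
theorem cut_one (h : CutP f ε ε' C S a R χ) {w : ℂ} (hw : w ∈ UH) (hf : ∀ i, ‖f i w‖ < ε') :
    χ none w = 1 := by
  have h1 := h.sum w hw
  rw [Fintype.sum_option] at h1
  have h2 : ∑ i, χ (some i) w = 0 := by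
    refine Finset.sum_eq_zero (fun i _ => ?_)
    by_contra h3
    exact absurd (h.large w hw i h3) (not_le.2 (hf i))
  rw [h2, add_zero] at h1
  exact h1

theorem cut_open (hf : ∀ i, DifferentiableOn ℂ (f i) UH) (ε : ℝ) :
    IsOpen {w | w ∈ UH ∧ ∀ i, ‖f i w‖ < ε} := by
  rw [isOpen_iff_mem_nhds]
  rintro w ⟨hw, hwi⟩
  have h1 : ∀ i, ∀ᶠ z in 𝓝 w, ‖f i z‖ < ε := fun i =>
    (((hf i).differentiableAt (isOpen_UH.mem_nhds hw)).continuousAt.norm).eventually
      (gt_mem_nhds (hwi i))
  filter_upwards [isOpen_UH.mem_nhds hw, eventually_all.2 h1] with z hz1 hz2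
  exact ⟨hz1, hz2⟩

theorem cut_mu1 (h : CutP f ε ε' C S a R χ) (hf : ∀ i, DifferentiableOn ℂ (f i) UH) {w : ℂ}
    (hw : w ∈ {w | w ∈ UH ∧ ∀ i, ‖f i w‖ < ε'}) (i : Fin N) : mu1 f S R χ i w = 0 := by
  have h1 : χ none =ᶠ[𝓝 w] fun _ => (1 : ℂ) := by
    filter_upwards [(cut_open hf ε').mem_nhds hw] with z hz
    exact cut_one h hz.1 hz.2
  have h2 : db (χ none) w = 0 := by
    by_contra h3
    apply db_ne h3
    rw [h1.fderiv_eq]
    simp
  rw [mu1_eq h hw.1, h2, mul_zero]

theorem cut_meas (h : CutP f ε ε' C S a R χ) : Measurable (UH.indicator (χ none)) := by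
  classical
  rw [← Set.piecewise_eq_indicator]
  exact ContinuousOn.measurable_piecewise (h.smooth none).continuousOn continuousOn_const
    isOpen_UH.measurableSet

/-- off the closure of the small set the distinguished cutoff function vanishes -/
theorem cut_zero (h : CutP f ε ε' C S a R χ) (hf : ∀ i, DifferentiableOn ℂ (f i) UH) {ε₀ : ℝ}
    (hε : ε < ε₀) {w : ℂ} (hw : w ∈ UH) (hwO : w ∉ {w | w ∈ UH ∧ ∀ i, ‖f i w‖ < ε₀}) :
    ∀ᶠ z in 𝓝 w, χ none z = 0 := by
  have h0 : ∃ i, ε < ‖f i w‖ := by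
    by_contra hno
    push Not at hno
    exact hwO ⟨hw, fun i => lt_of_le_of_lt (hno i) hε⟩
  obtain ⟨i, hi⟩ := h0
  have hc : ContinuousAt (f i) w := ((hf i).differentiableAt (isOpen_UH.mem_nhds hw)).continuousAt
  have h1 : ∀ᶠ z in 𝓝 w, ε < ‖f i z‖ := hc.norm.eventually (lt_mem_nhds hi)
  filter_upwards [h1, isOpen_UH.mem_nhds hw] with z hz1 hz2
  by_contra hne
  exact absurd (h.small z hz2 hne i) (not_le.2 hz1)

end

/-- **The induction step of the extension lemma.** -/
theorem extP_succ {N m : ℕ} {ε : ℝ} (hε : 0 < ε) (hε1 : ε ≤ 1)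
    (ih : ∀ ε : ℝ, 0 < ε → ε ≤ 1 → ∃ ε' C : ℝ, 0 < ε' ∧ ε' ≤ ε ∧ 0 ≤ C ∧ ExtP N m ε ε' C) :
    ∃ ε' C : ℝ, 0 < ε' ∧ ε' ≤ ε ∧ 0 ≤ C ∧ ExtP N (m + 1) ε ε' C := by
  obtain ⟨ε₁, C₁, hε₁, hε₁ε, hC₁, H1⟩ := ih ε hε hε1
  obtain ⟨ε₂, C₂, hε₂, hε₂ε, hC₂, H2⟩ := ih ε₁ hε₁ (hε₁ε.trans hε1)
  obtain ⟨ε', C, hε', hC, hcutN⟩ := cutN N (ε := ε / 2) (by positivity) (by linarith)
  set CV : ℝ := 2160 * Real.exp C * (C / ε') * C₁ with hCV
  have hCV0 : 0 ≤ CV := by positivity
  refine ⟨min ε₂ ε', max C₁ (C₂ * (1 + N * CV) + N * CV), lt_min hε₂ hε',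
    (min_le_left _ _).trans (hε₂ε.trans hε₁ε), hC₁.trans (le_max_left _ _), ?_⟩
  intro X _ _ _ _ _ κ u f r hd I hI Θ _ P hP p hp hp0 v M hM hv hvd hvb
  classical
  have hr0 := hd.r0
  have hr1 := hd.r1
  obtain ⟨k, J, hkJ, rfl, hJ⟩ := Finset.card_eq_succ.1 hI
  by_cases ha : P (u k) = 0
  · -- the form is constant on the slices
    have hin : ∀ θ z, z - P z = p θ → (inner ℂ (u k) z : ℂ) = inner ℂ (u k) (p θ) := by
      intro θ z hz
      have h1 : z = p θ + P z := by rw [← hz, sub_add_cancel]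
      rw [h1, inner_add_right, ← hP.symm, ha, inner_zero_left, add_zero]
    have hsl : ∀ θ x, (p θ + P x) - P (p θ + P x) = p θ := by
      intro θ x
      rw [map_add, hp0, hP.idem]
      abel
    set v' : Θ → X → ℂ := fun θ z => if ∀ i, ‖f k i (inner ℂ (u k) (p θ))‖ < ε then v θ z else 0
      with hv'
    have hv'm : Measurable (fun q : Θ × X => v' q.1 q.2) := by
      have h1 : MeasurableSet {q : Θ × X | ∀ i, ‖f k i (inner ℂ (u k) (p q.1))‖ < ε} := by
        have h2 : {q : Θ × X | ∀ i, ‖f k i (inner ℂ (u k) (p q.1))‖ < ε} =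
            ⋂ i, {q : Θ × X | ‖f k i (inner ℂ (u k) (p q.1))‖ < ε} := by
          ext q
          simp
        rw [h2]
        refine MeasurableSet.iInter (fun i => ?_)
        have h4 : Measurable (fun q : Θ × X => (inner ℂ (u k) (p q.1) : ℂ)) :=
          measurable_const.inner (hp.comp measurable_fst)
        exact measurableSet_lt ((hd.fm k i).comp h4).norm measurable_const
      exact Measurable.ite h1 hv measurable_const
    obtain ⟨F, hF1, hF2, hF3, hF4⟩ := H1 X κ u f r hd J hJ Θ P hP p hp hp0 v' M hM hv'm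
      (by
        intro θ
        by_cases hθ : ∀ i, ‖f k i (inner ℂ (u k) (p θ))‖ < ε
        · simp only [hv']
          simp only [hθ, implies_true, if_true]
          refine (hvd θ).mono (fun x hx => ?_)
          refine mem_insert_iff.2 ⟨hx, ?_⟩
          rw [hin θ _ (hsl θ x)]
          exact hθ
        · simp only [hv']
          simp only [hθ, if_false]
          exact differentiableOn_const _)
      (by
        intro θ z hz hzD
        by_cases hθ : ∀ i, ‖f k i (inner ℂ (u k) (p θ))‖ < ε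
        · simp only [hv']
          rw [if_pos hθ]
          refine hvb θ z hz (mem_insert_iff.2 ⟨hzD, ?_⟩)
          rw [hin θ z hz]
          exact hθ
        · simp only [hv']
          rw [if_neg hθ, norm_zero]
          exact hM)
    have hle : min ε₂ ε' ≤ ε₁ := (min_le_left _ _).trans hε₂ε
    have hsub : Dom u f r (insert k J) (min ε₂ ε') ⊆ Dom u f r J ε₁ :=
      (Dom_sub (Finset.subset_insert k J)).trans (Dom_mono hle)
    refine ⟨F, hF1, fun θ => (hF2 θ).mono hsub, fun θ z hz => ?_, fun θ z hs hz => ?_⟩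
    · refine (hF3 θ z (hsub hz)).trans ?_
      have := le_max_left C₁ (C₂ * (1 + N * CV) + N * CV)
      gcongr
    · rw [hF4 θ z hs (hsub hz)]
      simp only [hv']
      rw [if_pos]
      intro i
      rw [← hin θ z hs]
      exact lt_of_lt_of_le ((mem_insert_iff.1 hz).2 i) (hle.trans hε₁ε)
  · -- the main case
    set e : X := eV (P (u k)) with he
    set fh : Fin N → ℂ → ℂ := fun i w => f k i (cy r w) with hfh
    have hfhd : ∀ i, DifferentiableOn ℂ (fh i) UH := fun i => hd.cyd' k i
    obtain ⟨S, a, R, χ, hcut⟩ := hcutN fh ((1 - r ^ 2) / 16) (fun i => hd.nice k i)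
      (fun i => hd.lim k i)
    obtain ⟨V, hV1, hV2, hV3, hV4, hV5⟩ := opStep H1 hC₁ hε₁ε (by linarith : ε / 2 < ε) hε' hC.le
      hd hJ hP hp hp0 hM hv hvd hvb ha hcut
    set D : Set (ℂ × X) := DH r e (Dom u f r J ε₁) with hD
    have hOv : Ov D := DH_ov hr0 hr1 e hd.open
    set O : Set ℂ := {w | w ∈ UH ∧ ∀ i, ‖fh i w‖ < ε} with hO
    have hOo : IsOpen O := cut_open hfhd ε
    have hCVM : 2160 * Real.exp C * (C / ε') * (C₁ * M) = CV * M := by rw [hCV]; ring
    have hfb : ∀ i, ∀ w : ℂ, 0 < w.im → ‖fh i w‖ ≤ 1 := fun i w hw =>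
      hd.fb k i _ (cy_mem' hr0 hr1 hw)
    -- facts about the points of the slices
    have hdomO : ∀ θ y w, (w, y0 P (u k) (p θ) y) ∈ D → w ∈ O →
        cy r w • e + y0 P (u k) (p θ) y ∈ Dom u f r (insert k J) ε := by
      intro θ y w hw hwO
      refine mem_insert_iff.2 ⟨Dom_mono hε₁ε hw.2, ?_⟩
      rw [inner_y0 hP ha]
      exact hwO.2
    have hvb' : ∀ θ y w, (w, y0 P (u k) (p θ) y) ∈ D → w ∈ O →
        ‖v θ (cy r w • e + y0 P (u k) (p θ) y)‖ ≤ M := fun θ y w hw hwO =>
      hvb θ _ (slice_y0 hP (hp0 θ) _ y) (hdomO θ y w hw hwO)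
    have hvat : ∀ θ y w, (w, y0 P (u k) (p θ) y) ∈ D → w ∈ O →
        DifferentiableAt ℂ (fun x => v θ (p θ + P x))
          ((cy r w - inner ℂ (u k) (p θ)) • e + PQ P (P (u k)) y) := by
      intro θ y w hw hwO
      refine (hvd θ).differentiableAt ?_
      refine (hd.open.preimage (by fun_prop : Continuous fun x => p θ + P x)).mem_nhds ?_
      change p θ + P ((cy r w - inner ℂ (u k) (p θ)) • e + PQ P (P (u k)) y) ∈
        Dom u f r (insert k J) ε
      rw [← y0_eq hP]
      exact hdomO θ y w hw hwO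
    have hχO : ∀ w ∈ UH, χ none w ≠ 0 → w ∈ O := fun w hw hχ =>
      ⟨hw, fun i => lt_of_le_of_lt (hcut.small w hw hχ i) (by linarith)⟩
    -- the function on the domain over the half plane
    set GG : Θ → ℂ × X → ℂ := fun θ q => UH.indicator (χ none) q.1 *
      v θ (cy r q.1 • e + y0 P (u k) (p θ) q.2) +
      ∑ i, -fh i q.1 * V i θ (q.1, y0 P (u k) (p θ) q.2) with hGG
    have hy0c : ∀ θ, Differentiable ℂ (fun y => y0 P (u k) (p θ) y) := by
      intro θ
      unfold y0
      fun_prop
    have hD2o : ∀ θ, IsOpen {q : ℂ × X | (q.1, y0 P (u k) (p θ) q.2) ∈ D} := by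
      intro θ
      have h1 : Continuous (fun q : ℂ × X => (q.1, y0 P (u k) (p θ) q.2)) :=
        continuous_fst.prodMk ((hy0c θ).continuous.comp continuous_snd)
      exact hOv.op.preimage h1
    have hGGb : ∀ θ, ∀ q ∈ {q : ℂ × X | (q.1, y0 P (u k) (p θ) q.2) ∈ D},
        ‖GG θ q‖ ≤ (1 + N * CV) * M := by
      intro θ q hq
      have hw : q.1 ∈ UH := hOv.im (q.1, y0 P (u k) (p θ) q.2) hq
      have h1 : ‖UH.indicator (χ none) q.1 * v θ (cy r q.1 • e + y0 P (u k) (p θ) q.2)‖ ≤ M := by
        rw [indicator_of_mem hw]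
        by_cases hχ : χ none q.1 = 0
        · rw [hχ, zero_mul, norm_zero]
          exact hM
        · rw [norm_mul]
          have h2 := hcut.bd none q.1 hw
          have h3 := hvb' θ q.2 q.1 hq (hχO _ hw hχ)
          calc ‖χ none q.1‖ * _ ≤ 1 * M := by gcongr
            _ = M := one_mul M
      have h2 : ‖∑ i, -fh i q.1 * V i θ (q.1, y0 P (u k) (p θ) q.2)‖ ≤ N * CV * M := by
        refine (norm_sum_le _ _).trans ?_
        have h3 : ∀ i ∈ Finset.univ, ‖-fh i q.1 * V i θ (q.1, y0 P (u k) (p θ) q.2)‖ ≤ CV * M := by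
          intro i _
          rw [norm_mul, norm_neg]
          have h4 := hfb i q.1 hw
          have h5 := hV2 i θ _ hq
          rw [hCVM] at h5
          calc ‖fh i q.1‖ * ‖V i θ (q.1, y0 P (u k) (p θ) q.2)‖ ≤ 1 * (CV * M) := by gcongr
            _ = CV * M := one_mul _
        refine (Finset.sum_le_sum h3).trans (le_of_eq ?_)
        rw [Finset.sum_const, Finset.card_univ, Fintype.card_fin, nsmul_eq_mul]
        ring
      refine (norm_add_le _ _).trans ?_
      linarith
    have hGGd : ∀ θ, DifferentiableOn ℂ (GG θ) {q : ℂ × X | (q.1, y0 P (u k) (p θ) q.2) ∈ D} := by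
      intro θ
      refine osgood2 (hD2o θ) (hGGb θ) ?_ ?_
      · intro y
        have hΩo : IsOpen {w : ℂ | (w, y0 P (u k) (p θ) y) ∈ D} := slice_open hOv _
        have hΩU : {w : ℂ | (w, y0 P (u k) (p θ) y) ∈ D} ⊆ UH := fun w hw => hOv.im _ hw
        obtain ⟨hc1, hc2⟩ := mul_C1 hΩo hOo hΩU
          (g := fun w => v θ (cy r w • e + y0 P (u k) (p θ) y))
          (by
            rintro w ⟨hw, hwO⟩
            have h1 := hvat θ y w hw hwO
            have h2 : DifferentiableAt ℂ
                (fun w => (cy r w - inner ℂ (u k) (p θ)) • e + PQ P (P (u k)) y) w :=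
              (((cy_diffAt hr0 hr1 (hΩU hw)).sub_const _).smul_const e).add_const _
            have h3 := DifferentiableAt.comp (g := fun x => v θ (p θ + P x)) w h1 h2
            refine (h3.congr_of_eventuallyEq ?_).differentiableWithinAt
            refine Eventually.of_forall (fun w' => ?_)
            change v θ (cy r w' • e + y0 P (u k) (p θ) y) = v θ (p θ + P _)
            rw [← y0_eq hP])
          (hcut.smooth none) (fun w hw hwO => cut_zero hcut hfhd (by linarith) (hΩU hw) hwO)
        have hw1 : WD {w : ℂ | (w, y0 P (u k) (p θ) y) ∈ D}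
            (fun w => UH.indicator (χ none) w * v θ (cy r w • e + y0 P (u k) (p θ) y))
            (fun w => db (χ none) w * v θ (cy r w • e + y0 P (u k) (p θ) y)) :=
          (WD.of_C1 hΩo hc1).congr hΩo
            (fun w hw => by rw [indicator_of_mem (hΩU hw)]) (fun w hw => (hc2 w hw).symm)
        have hw3 := WD.sum hΩo (Finset.univ : Finset (Fin N))
          (V := fun i w => -fh i w * V i θ (w, y0 P (u k) (p θ) y))
          (ν := fun i w => -fh i w * (mu1 fh S R χ i w *
            v θ (cy r w • e + y0 P (u k) (p θ) y)))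
          (fun i _ => (hV3 i θ y).mul_holo hΩo ((hfhd i).mono hΩU).neg)
        refine (hw1.add hΩo hw3).holo hΩo ?_
        intro w hw
        have hwU := hΩU hw
        simp only [mu1_eq hcut hwU]
        have h1 : ∀ i, -fh i w * (starRingEnd ℂ (fh i w) / (DD fh w : ℂ) * db (χ none) w *
            v θ (cy r w • e + y0 P (u k) (p θ) y)) =
            (fh i w * (starRingEnd ℂ (fh i w) / (DD fh w : ℂ) * db (χ none) w)) *
              (-v θ (cy r w • e + y0 P (u k) (p θ) y)) := fun i => by ring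
        simp only [h1]
        rw [← Finset.sum_mul, sum_mu1 hcut hε' hfhd hwU]
        ring
      · intro w
        have hsum : DifferentiableOn ℂ
            (fun y : X => ∑ i, -fh i w * V i θ (w, y0 P (u k) (p θ) y))
            {y | (w, y0 P (u k) (p θ) y) ∈ D} := by
          refine DifferentiableOn.fun_sum (fun i _ => DifferentiableOn.const_mul ?_ _)
          exact (hV4 i θ w).comp (hy0c θ).differentiableOn (fun y hy => hy)
        have h1 : DifferentiableOn ℂ
            (fun y : X => UH.indicator (χ none) w * v θ (cy r w • e + y0 P (u k) (p θ) y))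
            {y | (w, y0 P (u k) (p θ) y) ∈ D} := by
          by_cases hχ : UH.indicator (χ none) w = 0
          · simp only [hχ, zero_mul]
            exact differentiableOn_const _
          · intro y hy
            have hwU : w ∈ UH := hOv.im _ hy
            have hwO : w ∈ O := hχO w hwU (by rwa [indicator_of_mem hwU] at hχ)
            have h1 := hvat θ y w hy hwO
            have h2 : DifferentiableAt ℂ
                (fun y => (cy r w - inner ℂ (u k) (p θ)) • e + PQ P (P (u k)) y) y := by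
              fun_prop
            have h3 := DifferentiableAt.comp (g := fun x => v θ (p θ + P x)) y h1 h2
            refine ((h3.congr_of_eventuallyEq ?_).const_mul _).differentiableWithinAt
            refine Eventually.of_forall (fun y' => ?_)
            change v θ (cy r w • e + y0 P (u k) (p θ) y') = v θ (p θ + P _)
            rw [← y0_eq hP]
        exact h1.fun_add hsum
    -- the functions on the ball
    set g : Θ → X → ℂ := fun θ z => UH.indicator (χ none) (yc r (inner ℂ (u k) z)) * v θ z +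
      ∑ i, -f k i (inner ℂ (u k) z) *
        V i θ (yc r (inner ℂ (u k) z), z - (inner ℂ (u k) z : ℂ) • e) with hg
    have hmem : ∀ z ∈ Dom u f r J ε₁,
        (yc r (inner ℂ (u k) z), z - (inner ℂ (u k) z : ℂ) • e) ∈ D := by
      intro z hz
      have h1 := hd.lt k hz.1
      refine ⟨yc_im hr0 h1, ?_⟩
      change cy r (yc r (inner ℂ (u k) z)) • e + (z - (inner ℂ (u k) z : ℂ) • e) ∈ _
      rw [cy_yc hr0 h1]
      rwa [add_sub_cancel]
    have hy0z : ∀ θ z, z - P z = p θ →
        y0 P (u k) (p θ) z = z - (inner ℂ (u k) z : ℂ) • e := by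
      intro θ z hz
      have h1 : z = p θ + P z := by rw [← hz, sub_add_cancel]
      have h2 : (inner ℂ (u k) z : ℂ) = inner ℂ (u k) (p θ) + inner ℂ (P (u k)) z := by
        rw [hP.symm]
        nth_rewrite 1 [h1]
        rw [inner_add_right]
      unfold y0
      rw [PQ_apply, h2, add_smul]
      nth_rewrite 3 [h1]
      abel
    have hgG : ∀ θ z, z - P z = p θ → z ∈ Dom u f r J ε₁ →
        g θ z = GG θ (yc r (inner ℂ (u k) z), z) := by
      intro θ z hs hz
      have h1 := hd.lt k hz.1
      simp only [hg, hGG]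
      rw [hy0z θ z hs]
      simp only [hfh]
      rw [cy_yc hr0 h1, add_sub_cancel]
    have hgm : Measurable (fun q : Θ × X => g q.1 q.2) := by
      have hi : Measurable (fun q : Θ × X => (inner ℂ (u k) q.2 : ℂ)) :=
        measurable_const.inner measurable_snd
      have hy : Measurable (fun q : Θ × X => yc r (inner ℂ (u k) q.2)) := (yc_meas r).comp hi
      have h1 : Measurable (fun q : Θ × X =>
          UH.indicator (χ none) (yc r (inner ℂ (u k) q.2)) * v q.1 q.2) :=
        ((cut_meas hcut).comp hy).mul hv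
      refine h1.add (Finset.measurable_fun_sum _ (fun i _ => ?_))
      have h2 : Measurable (fun q : Θ × X =>
          (yc r (inner ℂ (u k) q.2), q.2 - (inner ℂ (u k) q.2 : ℂ) • e)) :=
        hy.prodMk (measurable_snd.sub (hi.smul_const e))
      have h3 : Measurable (fun q : Θ × X =>
          V i q.1 (yc r (inner ℂ (u k) q.2), q.2 - (inner ℂ (u k) q.2 : ℂ) • e)) :=
        (hV1 i).comp (measurable_fst.prodMk h2)
      exact (((hd.fm k i).comp hi).neg).mul h3
    have hsl : ∀ θ x, (p θ + P x) - P (p θ + P x) = p θ := by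
      intro θ x
      rw [map_add, hp0, hP.idem]
      abel
    have hgd : ∀ θ, DifferentiableOn ℂ (fun x => g θ (p θ + P x))
        {x | p θ + P x ∈ Dom u f r J ε₁} := by
      intro θ x hx
      have hx' : p θ + P x ∈ Dom u f r J ε₁ := hx
      have hlt := hd.lt k hx'.1
      have hmx := hmem _ hx'
      have hq : (yc r (inner ℂ (u k) (p θ + P x)), p θ + P x) ∈
          {q : ℂ × X | (q.1, y0 P (u k) (p θ) q.2) ∈ D} := by
        change (_, y0 P (u k) (p θ) (p θ + P x)) ∈ D
        rw [hy0z θ _ (hsl θ x)]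
        exact hmx
      have h1 : DifferentiableAt ℂ (GG θ) (yc r (inner ℂ (u k) (p θ + P x)), p θ + P x) :=
        (hGGd θ).differentiableAt ((hD2o θ).mem_nhds hq)
      have h2 : DifferentiableAt ℂ (fun x => p θ + P x) x := by fun_prop
      have h3 : DifferentiableAt ℂ (fun x => (inner ℂ (u k) (p θ + P x) : ℂ)) x :=
        DifferentiableAt.comp (g := fun z => (inner ℂ (u k) z : ℂ)) x
          (innerSL ℂ (u k)).differentiableAt h2
      have h4 : DifferentiableAt ℂ (fun x => yc r (inner ℂ (u k) (p θ + P x))) x :=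
        DifferentiableAt.comp (g := yc r) x (yc_diff hr0 hlt) h3
      have h5 : DifferentiableAt ℂ
          (fun x => GG θ (yc r (inner ℂ (u k) (p θ + P x)), p θ + P x)) x :=
        DifferentiableAt.comp (g := GG θ) x h1 (h4.prodMk h2)
      refine (h5.congr_of_eventuallyEq ?_).differentiableWithinAt
      have h6 : {x | p θ + P x ∈ Dom u f r J ε₁} ∈ 𝓝 x :=
        (hd.open.preimage (by fun_prop : Continuous fun x => p θ + P x)).mem_nhds hx
      filter_upwards [h6] with y hy
      exact hgG θ _ (hsl θ y) hy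
    have hgb : ∀ θ z, z - P z = p θ → z ∈ Dom u f r J ε₁ → ‖g θ z‖ ≤ (1 + N * CV) * M := by
      intro θ z hs hz
      rw [hgG θ z hs hz]
      refine hGGb θ _ ?_
      change (_, y0 P (u k) (p θ) z) ∈ D
      rw [hy0z θ z hs]
      exact hmem z hz
    obtain ⟨W, hW1, hW2, hW3, hW4⟩ := H2 X κ u f r hd J hJ Θ P hP p hp hp0 g ((1 + N * CV) * M)
      (by positivity) hgm hgd hgb
    have hsub2 : Dom u f r (insert k J) (min ε₂ ε') ⊆ Dom u f r J ε₂ :=
      (Dom_sub (Finset.subset_insert k J)).trans (Dom_mono (min_le_left _ _))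
    have hsub1 : Dom u f r (insert k J) (min ε₂ ε') ⊆ Dom u f r J ε₁ :=
      hsub2.trans (Dom_mono hε₂ε)
    set O' : Set ℂ := {w | w ∈ UH ∧ ∀ i, ‖fh i w‖ < ε'} with hO'
    have hO'o : IsOpen O' := cut_open hfhd ε'
    have hmemO : ∀ z ∈ Dom u f r (insert k J) (min ε₂ ε'), yc r (inner ℂ (u k) z) ∈ O' := by
      intro z hz
      have h1 := hd.lt k hz.1
      refine ⟨yc_im hr0 h1, fun i => ?_⟩
      simp only [hfh]
      rw [cy_yc hr0 h1]
      exact lt_of_lt_of_le ((mem_insert_iff.1 hz).2 i) (min_le_right _ _)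
    refine ⟨fun θ z => W θ z + ∑ i, f k i (inner ℂ (u k) z) *
        V i θ (yc r (inner ℂ (u k) z), z - (inner ℂ (u k) z : ℂ) • e), ?_, ?_, ?_, ?_⟩
    · have hi : Measurable (fun q : Θ × X => (inner ℂ (u k) q.2 : ℂ)) :=
        measurable_const.inner measurable_snd
      have hy : Measurable (fun q : Θ × X => yc r (inner ℂ (u k) q.2)) := (yc_meas r).comp hi
      refine hW1.add (Finset.measurable_fun_sum _ (fun i _ => ?_))
      have h2 : Measurable (fun q : Θ × X =>
          (yc r (inner ℂ (u k) q.2), q.2 - (inner ℂ (u k) q.2 : ℂ) • e)) :=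
        hy.prodMk (measurable_snd.sub (hi.smul_const e))
      have h3 : Measurable (fun q : Θ × X =>
          V i q.1 (yc r (inner ℂ (u k) q.2), q.2 - (inner ℂ (u k) q.2 : ℂ) • e)) :=
        (hV1 i).comp (measurable_fst.prodMk h2)
      exact ((hd.fm k i).comp hi).mul h3
    · intro θ
      refine ((hW2 θ).mono hsub2).fun_add (DifferentiableOn.fun_sum (fun i _ => ?_))
      intro z hz
      have hlt := hd.lt k hz.1
      have h1 := hd.diffAt k i hz.1
      have hVO := hV5 i θ O' hO'o (fun w hw _ => cut_mu1 hcut hfhd hw i)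
      have hop : IsOpen {q : ℂ × X | q ∈ D ∧ q.1 ∈ O'} :=
        hOv.op.inter (hO'o.preimage continuous_fst)
      have h2 : DifferentiableAt ℂ (V i θ)
          (yc r (inner ℂ (u k) z), z - (inner ℂ (u k) z : ℂ) • e) :=
        hVO.differentiableAt (hop.mem_nhds ⟨hmem z (hsub1 hz), hmemO z hz⟩)
      have h3 : DifferentiableAt ℂ (fun z : X => (inner ℂ (u k) z : ℂ)) z :=
        (innerSL ℂ (u k)).differentiableAt
      have h4 : DifferentiableAt ℂ (fun z : X => yc r (inner ℂ (u k) z)) z :=
        DifferentiableAt.comp (g := yc r) z (yc_diff hr0 hlt) h3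
      have h5 : DifferentiableAt ℂ
          (fun z : X => (yc r (inner ℂ (u k) z), z - (inner ℂ (u k) z : ℂ) • e)) z :=
        h4.prodMk (differentiableAt_id.fun_sub (h3.smul_const e))
      have h6 : DifferentiableAt ℂ
          (fun z : X => V i θ (yc r (inner ℂ (u k) z), z - (inner ℂ (u k) z : ℂ) • e)) z :=
        DifferentiableAt.comp (g := V i θ) z h2 h5
      exact (h1.fun_mul h6).differentiableWithinAt
    · intro θ z hz
      have h1 := hW3 θ z (hsub2 hz)
      have h2 : ‖∑ i, f k i (inner ℂ (u k) z) *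
          V i θ (yc r (inner ℂ (u k) z), z - (inner ℂ (u k) z : ℂ) • e)‖ ≤ N * CV * M := by
        refine (norm_sum_le _ _).trans ?_
        have h3 : ∀ i ∈ Finset.univ, ‖f k i (inner ℂ (u k) z) *
            V i θ (yc r (inner ℂ (u k) z), z - (inner ℂ (u k) z : ℂ) • e)‖ ≤ CV * M := by
          intro i _
          rw [norm_mul]
          have h4 := hd.fb k i _ (hd.mem k hz.1)
          have h5 := hV2 i θ _ (hmem z (hsub1 hz))
          rw [hCVM] at h5
          calc _ ≤ 1 * (CV * M) := by gcongr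
            _ = CV * M := one_mul _
        refine (Finset.sum_le_sum h3).trans (le_of_eq ?_)
        rw [Finset.sum_const, Finset.card_univ, Fintype.card_fin, nsmul_eq_mul]
        ring
      refine (norm_add_le _ _).trans ((add_le_add h1 h2).trans ?_)
      have h3 := le_max_right C₁ (C₂ * (1 + N * CV) + N * CV)
      calc C₂ * ((1 + N * CV) * M) + N * CV * M = (C₂ * (1 + N * CV) + N * CV) * M := by ring
        _ ≤ _ := by gcongr
    · intro θ z hs hz
      have h1 := hW4 θ z hs (hsub2 hz)
      have hO'z := hmemO z hz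
      beta_reduce
      rw [h1]
      simp only [hg]
      rw [indicator_of_mem hO'z.1, cut_one hcut hO'z.1 hO'z.2, one_mul, add_assoc,
        ← Finset.sum_add_distrib]
      have h2 : ∑ i, (-f k i (inner ℂ (u k) z) *
          V i θ (yc r (inner ℂ (u k) z), z - (inner ℂ (u k) z : ℂ) • e) +
          f k i (inner ℂ (u k) z) *
          V i θ (yc r (inner ℂ (u k) z), z - (inner ℂ (u k) z : ℂ) • e)) = 0 :=
        Finset.sum_eq_zero (fun i _ => by ring)
      rw [h2, add_zero]

/-- **The extension lemma.** -/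
theorem extP (N m : ℕ) : ∀ ε : ℝ, 0 < ε → ε ≤ 1 →
    ∃ ε' C : ℝ, 0 < ε' ∧ ε' ≤ ε ∧ 0 ≤ C ∧ ExtP N m ε ε' C := by
  induction m with
  | zero => exact fun ε hε _ => ⟨ε, 1, hε, le_rfl, zero_le_one, extP_zero N ε⟩
  | succ m ih => exact fun ε hε hε1 => extP_succ hε hε1 ih

end Pool.Agent.Y263.LF
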