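import Mathlib
import Pool.Agent.Y263.LF.Ext
import Pool.Agent.H788R3.Cor3.Base3

/-!
Localisation: from solutions of the Bezout equation on the set where functions of finitely many
linear forms are small to solutions on the ball.
-/

set_option autoImplicit false
set_option linter.unusedSectionVars false

open MeasureTheory Metric Set Filter Topology Complex
open scoped ContDiff

namespace Pool.Agent.Y263.LF

open Pool.Agent.H720R2 Pool.Agent.H720R2.HP
open Pool.Agent.H788R3.Cor2 (cy yc cy_mem cy_mem' cy_diff cy_diffAt cy_yc yc_im yc_diff osgood2)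
open Pool.Agent.H788R3.Cor3 (mul_C1 exhaust3)
open Pool.Agent.Y263.SC (Ov slice_open Den AA den1' Ov.UH)

/-- the Bezout equation for the functions `F m` is solvable on `Ω` with bound `C` -/
def Bez {X : Type} [NormedAddCommGroup X] [NormedSpace ℂ X] (Ω : Set X) {J : Type} [Fintype J]
    (F : J → X → ℂ) (C : ℝ) : Prop :=
  ∃ g : J → X → ℂ, (∀ m, DifferentiableOn ℂ (g m) Ω) ∧ (∀ m, ∀ z ∈ Ω, ‖g m z‖ ≤ C) ∧
    ∀ z ∈ Ω, ∑ m, F m z * g m z = 1

theorem Bez.mono {X : Type} [NormedAddCommGroup X] [NormedSpace ℂ X] {Ω Ω' : Set X} {J : Type}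
    [Fintype J] {F : J → X → ℂ} {C C' : ℝ} (h : Bez Ω F C) (hΩ : Ω' ⊆ Ω) (hC : C ≤ C') :
    Bez Ω' F C' := by
  obtain ⟨g, h1, h2, h3⟩ := h
  exact ⟨g, fun m => (h1 m).mono hΩ, fun m z hz => (h2 m z (hΩ hz)).trans hC,
    fun z hz => h3 z (hΩ hz)⟩

/-- one step of the localisation -/
theorem locStep (N m M : ℕ) {ε Q : ℝ} (hε : 0 < ε) (hε1 : ε ≤ 1) (hQ : 0 ≤ Q) :
    ∃ ε₁ C : ℝ, 0 < ε₁ ∧ ε₁ ≤ ε ∧ 0 ≤ C ∧ ∀ (X : Type) [NormedAddCommGroup X]
    [InnerProductSpace ℂ X] [FiniteDimensional ℂ X] [MeasurableSpace X] [BorelSpace X]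
    (κ : Type) [DecidableEq κ] (u : κ → X) (f : κ → Fin N → ℂ → ℂ) (r : ℝ), Dat u f r →
    ∀ (I : Finset κ), I.card = m → ∀ (k : κ) (J : Type) [Fintype J], Fintype.card J = M →
    ∀ (G : J → X → ℂ), (∀ j, DifferentiableOn ℂ (G j) (ball 0 r)) →
    (∀ j, ∀ z ∈ ball (0 : X) r, ‖G j z‖ ≤ 1) →
    Bez (Dom u f r (insert k I) ε) G Q →
    Bez (Dom u f r I ε₁) (Sum.elim (fun (i : Fin N) z => f k i (inner ℂ (u k) z)) G) C := by
  obtain ⟨ε₁, C₁, hε₁, hε₁ε, hC₁, H1⟩ := extP N m ε hε hε1
  obtain ⟨ε', C, hε', hC, hcutN⟩ := cutN N (ε := ε / 2) (by positivity) (by linarith)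
  set CV : ℝ := 2160 * Real.exp C * (C / ε') * (C₁ * Q) with hCV
  have hCV0 : 0 ≤ CV := by positivity
  set A1 : ℝ := 1 / ε' + M * CV + N * (2 * (2160 * Real.exp C * (2 * C / ε' ^ 2) * 1)) with hA1
  set A2 : ℝ := Q + N * CV with hA2
  have hA10 : 0 ≤ A1 := by positivity
  have hA20 : 0 ≤ A2 := by positivity
  refine ⟨ε₁, max (1 / ε) (max A1 A2), hε₁, hε₁ε, (hA10.trans (le_max_left _ _)).trans
    (le_max_right _ _), ?_⟩
  intro X _ _ _ _ _ κ _ u f r hd I hI k J _ hJ G hG hGb hbez
  have hr0 := hd.r0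
  have hr1 := hd.r1
  obtain ⟨k', hk', hkb', hGk'⟩ := hbez
  have hQm : Q ≤ max (1 / ε) (max A1 A2) := by
    have h1 : Q ≤ A2 := by rw [hA2]; linarith [mul_nonneg (Nat.cast_nonneg (α := ℝ) N) hCV0]
    exact (h1.trans (le_max_right _ _)).trans (le_max_right _ _)
  by_cases hu : u k = 0
  · have hin : ∀ z : X, (inner ℂ (u k) z : ℂ) = 0 := fun z => by rw [hu, inner_zero_left]
    by_cases h0 : ∀ i, ‖f k i 0‖ < ε
    · have hsub : Dom u f r I ε₁ ⊆ Dom u f r (insert k I) ε := by
        intro z hz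
        refine mem_insert_iff.2 ⟨Dom_mono hε₁ε hz, fun i => ?_⟩
        rw [hin]
        exact h0 i
      refine ⟨Sum.elim (fun _ _ => 0) k', ?_, ?_, ?_⟩
      · rintro (i | j)
        · exact differentiableOn_const _
        · exact (hk' j).mono hsub
      · rintro (i | j) z hz
        · simp only [Sum.elim_inl, norm_zero]
          exact hQ.trans hQm
        · exact (hkb' j z (hsub hz)).trans hQm
      · intro z hz
        rw [Fintype.sum_sum_type]
        simp only [Sum.elim_inl, Sum.elim_inr, mul_zero, Finset.sum_const_zero, zero_add]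
        exact hGk' z (hsub hz)
    · push Not at h0
      obtain ⟨i0, hi0⟩ := h0
      have hne : f k i0 0 ≠ 0 := by
        intro h
        rw [h, norm_zero] at hi0
        linarith
      refine ⟨Sum.elim (fun i _ => if i = i0 then (f k i0 0)⁻¹ else 0) (fun _ _ => 0), ?_, ?_, ?_⟩
      · rintro (i | j)
        · exact differentiableOn_const _
        · exact differentiableOn_const _
      · rintro (i | j) z hz
        · simp only [Sum.elim_inl]
          split_ifs with h
          · rw [norm_inv]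
            refine le_trans ?_ (le_max_left _ _)
            rw [one_div]
            exact inv_anti₀ hε hi0
          · rw [norm_zero]
            exact hQ.trans hQm
        · simp only [Sum.elim_inr, norm_zero]
          exact hQ.trans hQm
      · intro z hz
        rw [Fintype.sum_sum_type]
        simp only [Sum.elim_inl, Sum.elim_inr, mul_zero, Finset.sum_const_zero, add_zero, hin,
          mul_ite, Finset.sum_ite_eq', Finset.mem_univ, if_true]
        exact mul_inv_cancel₀ hne
  · -- the main case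
    classical
    have hDo : IsOpen (Dom u f r (insert k I) ε) := hd.open
    set kk : J → X → ℂ := fun j => (Dom u f r (insert k I) ε).indicator (k' j) with hkk
    have hkkeq : ∀ j, ∀ z ∈ Dom u f r (insert k I) ε, kk j z = k' j z := fun j z hz =>
      indicator_of_mem hz _
    have hkd : ∀ j, DifferentiableOn ℂ (kk j) (Dom u f r (insert k I) ε) := fun j =>
      (hk' j).congr (fun z hz => hkkeq j z hz)
    have hkb : ∀ j, ∀ z ∈ Dom u f r (insert k I) ε, ‖kk j z‖ ≤ Q := fun j z hz => by
      rw [hkkeq j z hz]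
      exact hkb' j z hz
    have hGk : ∀ z ∈ Dom u f r (insert k I) ε, ∑ j, G j z * kk j z = 1 := fun z hz => by
      rw [← hGk' z hz]
      exact Finset.sum_congr rfl (fun j _ => by rw [hkkeq j z hz])
    have hkm : ∀ j, Measurable (kk j) := by
      intro j
      rw [hkk]
      beta_reduce
      rw [← Set.piecewise_eq_indicator]
      exact ContinuousOn.measurable_piecewise (hk' j).continuousOn continuousOn_const
        hDo.measurableSet
    set P : X →L[ℂ] X := ContinuousLinearMap.id ℂ X with hPdef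
    have hP : OP P := OP.id
    have ha : P (u k) ≠ 0 := hu
    set e : X := eV (P (u k)) with he
    set fh : Fin N → ℂ → ℂ := fun i w => f k i (cy r w) with hfh
    have hfhd : ∀ i, DifferentiableOn ℂ (fh i) UH := fun i => hd.cyd' k i
    obtain ⟨S, a, R, χ, hcut⟩ := hcutN fh ((1 - r ^ 2) / 16) (fun i => hd.nice k i)
      (fun i => hd.lim k i)
    have hop := fun j : J => opStep H1 hC₁ hε₁ε (by linarith : ε / 2 < ε) hε' hC.le
      hd hI hP (Θ := Unit) (p := fun _ => (0 : X)) measurable_const (fun _ => map_zero P)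
      (v := fun _ => kk j) hQ ((hkm j).comp measurable_snd)
      (by
        intro _
        refine (hkd j).comp (by fun_prop) ?_
        intro x hx
        exact hx)
      (fun _ z _ hz => hkb j z hz) ha hcut
    choose V hV1 hV2 hV3 hV4 hV5 using hop
    set D : Set (ℂ × X) := DH r e (Dom u f r I ε₁) with hD
    have hOv : Ov D := DH_ov hr0 hr1 e hd.open
    set O : Set ℂ := {w | w ∈ UH ∧ ∀ i, ‖fh i w‖ < ε} with hO
    have hOo : IsOpen O := cut_open hfhd ε
    have hy0d : Differentiable ℂ (fun y => y0 P (u k) 0 y) := by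
      unfold y0
      fun_prop
    have hTd : Differentiable ℂ (fun q : ℂ × X => (q.1, y0 P (u k) 0 q.2)) :=
      differentiable_fst.prodMk (hy0d.comp differentiable_snd)
    set D2 : Set (ℂ × X) := {q | (q.1, y0 P (u k) 0 q.2) ∈ D} with hD2
    have hOv2 : Ov D2 := ⟨hOv.op.preimage hTd.continuous,
      fun q hq => hOv.im (q.1, y0 P (u k) 0 q.2) hq⟩
    set zz : ℂ × X → X := fun q => cy r q.1 • e + y0 P (u k) 0 q.2 with hzz
    have hzzd : ∀ q ∈ D2, DifferentiableAt ℂ zz q := by
      intro q hq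
      exact DifferentiableAt.comp (g := fun q : ℂ × X => cy r q.1 • e + q.2)
        (f := fun q : ℂ × X => (q.1, y0 P (u k) 0 q.2)) q
        (zm_diff hr0 hr1 e (hOv.im (q.1, y0 P (u k) 0 q.2) hq)) (hTd q)
    have hzzm : ∀ q ∈ D2, zz q ∈ Dom u f r I ε₁ := fun q hq => hq.2
    have hzzO : ∀ q ∈ D2, q.1 ∈ O → zz q ∈ Dom u f r (insert k I) ε := by
      intro q hq hqO
      refine mem_insert_iff.2 ⟨Dom_mono hε₁ε (hzzm q hq), ?_⟩
      simp only [hzz]
      rw [inner_y0 hP ha]
      exact hqO.2
    have hzzb : ∀ q ∈ D2, zz q ∈ ball (0 : X) r := fun q hq => by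
      rw [mem_ball_zero_iff]
      exact (hzzm q hq).1
    obtain ⟨g, g0, s1, s2, s3, s4, s5⟩ := solveY (D := D2) hOv2 hcut hε' hC.le hfhd
      (fun i w hw => hd.fb k i _ (cy_mem' hr0 hr1 hw)) (G := fun j q => G j (zz q))
      (fun j q hq => (DifferentiableAt.comp (g := G j) q
        ((hG j).differentiableAt (isOpen_ball.mem_nhds (hzzb q hq)))
        (hzzd q hq)).differentiableWithinAt)
      (fun j q hq => hGb j _ (hzzb q hq)) hOo
      (fun w hw hi => ⟨hw, fun i => lt_of_le_of_lt (hi i) (by linarith)⟩)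
      (k := fun j q => kk j (zz q))
      (fun j q hq => (DifferentiableAt.comp (g := kk j) q
        ((hkd j).differentiableAt (hDo.mem_nhds (hzzO q hq.1 hq.2)))
        (hzzd q hq.1)).differentiableWithinAt)
      hQ (fun j q hq hqO => hkb j _ (hzzO q hq hqO)) (fun q hq hqO => hGk _ (hzzO q hq hqO))
      (C1 := CV) (V := fun i j q => V j i () (q.1, y0 P (u k) 0 q.2))
      (fun i j q hq => hV2 j i () _ hq) (fun i j y => hV3 j i () y)
      (fun i j w => (hV4 j i () w).comp hy0d.differentiableOn (fun y hy => hy))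
    rw [hJ] at s3
    -- back to the ball
    set T : X → ℂ × X := fun z => (yc r (inner ℂ (u k) z), z) with hT
    have hy0z : ∀ z : X, y0 P (u k) 0 z = z - (inner ℂ (u k) z : ℂ) • e := by
      intro z
      unfold y0
      rw [PQ_apply]
      simp [hPdef, he]
    have hTm : ∀ z ∈ Dom u f r I ε₁, T z ∈ D2 ∧ zz (T z) = z := by
      intro z hz
      have h1 := hd.lt k hz.1
      have h2 : zz (T z) = z := by
        simp only [hzz, hT]
        rw [hy0z, cy_yc hr0 h1, add_sub_cancel]
      refine ⟨⟨yc_im hr0 h1, ?_⟩, h2⟩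
      change zz (T z) ∈ _
      rw [h2]
      exact hz
    have hTd' : DifferentiableOn ℂ T (Dom u f r I ε₁) := by
      intro z hz
      have h3 : DifferentiableAt ℂ (fun z : X => (inner ℂ (u k) z : ℂ)) z :=
        (innerSL ℂ (u k)).differentiableAt
      have h4 : DifferentiableAt ℂ (fun z : X => yc r (inner ℂ (u k) z)) z :=
        DifferentiableAt.comp (g := yc r) z (yc_diff hr0 (hd.lt k hz.1)) h3
      exact (h4.prodMk differentiableAt_id).differentiableWithinAt
    refine ⟨Sum.elim (fun i z => g i (T z)) (fun j z => g0 j (T z)), ?_, ?_, ?_⟩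
    · rintro (i | j)
      · exact (s1 i).comp hTd' (fun z hz => (hTm z hz).1)
      · exact (s2 j).comp hTd' (fun z hz => (hTm z hz).1)
    · rintro (i | j) z hz
      · exact (s3 i _ (hTm z hz).1).trans ((le_max_left _ _).trans (le_max_right _ _))
      · exact (s4 j _ (hTm z hz).1).trans ((le_max_right _ _).trans (le_max_right _ _))
    · intro z hz
      obtain ⟨h1, h2⟩ := hTm z hz
      have h3 := s5 _ h1
      rw [Fintype.sum_sum_type]
      simp only [Sum.elim_inl, Sum.elim_inr]
      rw [h2] at h3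
      have h4 : ∀ i, fh i (T z).1 = f k i (inner ℂ (u k) z) := by
        intro i
        simp only [hfh, hT]
        rw [cy_yc hr0 (hd.lt k hz.1)]
      simp only [h4] at h3
      exact h3

end Pool.Agent.Y263.LF
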