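import Mathlib

/-!
From corona theorems for tuples to corona theorems for closed algebras: characters.
-/

set_option autoImplicit false
set_option linter.unusedSectionVars false

open Filter Topology

namespace Pool.Agent.Y263.LF

variable {A : Type} [NormedCommRing A] [NormedAlgebra ℂ A] [CompleteSpace A] {S : Type}

/-- finite intersections of the basic sets -/
theorem basic_fin {ι : Type} (ev : S → A →ₐ[ℂ] ℂ) (h : ι → A) (c : ι → ℂ) (t : Finset ι) :
    ∀ s : Set S, s ∈ (⨅ i ∈ t, comap (fun z => ev z (h i)) (𝓝 (c i))) →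
      ∃ η : ℝ, 0 < η ∧ ∀ z, (∀ i ∈ t, ‖ev z (h i) - c i‖ < η) → z ∈ s := by
  classical
  induction t using Finset.induction_on with
  | empty =>
    intro s hs
    refine ⟨1, one_pos, fun z _ => ?_⟩
    simp only [Finset.notMem_empty, iInf_false, iInf_top, mem_top] at hs
    rw [hs]
    trivial
  | insert i t hi ih =>
    intro s hs
    rw [Finset.iInf_insert] at hs
    obtain ⟨s1, hs1, s2, hs2, rfl⟩ := hs
    obtain ⟨η2, hη2, h2⟩ := ih s2 hs2
    rw [mem_comap] at hs1
    obtain ⟨U, hU, hUs⟩ := hs1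
    obtain ⟨η1, hη1, h1⟩ := Metric.mem_nhds_iff.1 hU
    refine ⟨min η1 η2, lt_min hη1 hη2, fun z hz => ⟨hUs (h1 ?_), h2 z (fun j hj => ?_)⟩⟩
    · rw [mem_ball_iff_norm]
      exact lt_of_lt_of_le (hz i (Finset.mem_insert_self _ _)) (min_le_left _ _)
    · exact lt_of_lt_of_le (hz j (Finset.mem_insert_of_mem hj)) (min_le_right _ _)

/-- **Cluster value theorem**: characters are limits of evaluations on closed algebras. -/
theorem char_ct (ev : S → A →ₐ[ℂ] ℂ) (hev : ∀ z a, ‖ev z a‖ ≤ ‖a‖) (R : Set A) (G : A)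
    (T : ∀ (t : Finset A), (∀ h ∈ t, h ∈ R) → ∀ (c : A → ℂ) (c0 : ℂ) (δ : ℝ), 0 < δ →
      (∀ z, δ ≤ ∑ h ∈ t, ‖ev z h - c h‖ + ‖ev z G - c0‖) →
      ∃ (g : A → A) (g0 : A), ∑ h ∈ t, (h - algebraMap ℂ A (c h)) * g h +
        (G - algebraMap ℂ A c0) * g0 = 1)
    (φ : WeakDual.characterSpace ℂ A) :
    ∃ ℱ : Filter S, ℱ.NeBot ∧ ∀ a ∈ (Algebra.adjoin ℂ (insert G R)).topologicalClosure,
      Tendsto (fun z => ev z a) ℱ (𝓝 (φ a)) := by
  classical
  -- the filter
  set ℱ : Filter S := ⨅ h : ↥(insert G R), comap (fun z => ev z h) (𝓝 (φ (h : A))) with hℱ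
  have hne : ℱ.NeBot := by
    rw [neBot_iff]
    intro hbot
    have h0 : (∅ : Set S) ∈ ℱ := by rw [hbot]; exact mem_bot
    rw [hℱ, mem_iInf_finite] at h0
    obtain ⟨t, ht⟩ := h0
    obtain ⟨η, hη, hη2⟩ := basic_fin ev (fun h : ↥(insert G R) => (h : A))
      (fun h => φ (h : A)) t ∅ ht
    have hno' : ∀ z, ∃ h ∈ t, η ≤ ‖ev z (h : A) - φ (h : A)‖ := by
      intro z
      by_contra hz
      push Not at hz
      exact hη2 z hz
    set t' : Finset A := (t.image Subtype.val).filter (fun h => h ∈ R) with ht'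
    obtain ⟨g, g0, hg⟩ := T t' (fun h hh => (Finset.mem_filter.1 hh).2) (fun h => φ h) (φ G) η hη
      (by
        intro z
        obtain ⟨h, hh, hle⟩ := hno' z
        have hnn : 0 ≤ ∑ h ∈ t', ‖ev z h - φ h‖ := Finset.sum_nonneg (fun _ _ => norm_nonneg _)
        rcases h.2 with hG | hR
        · rw [hG] at hle
          linarith
        · have h1 : (h : A) ∈ t' :=
            Finset.mem_filter.2 ⟨Finset.mem_image.2 ⟨h, hh, rfl⟩, hR⟩
          have h2 := Finset.single_le_sum (f := fun h => ‖ev z h - φ h‖)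
            (fun _ _ => norm_nonneg _) h1
          have h3 := norm_nonneg (ev z G - φ G)
          linarith)
    have h1 := congrArg (fun a => φ a) hg
    simp only [map_add, map_sum, map_mul, map_sub, map_one] at h1
    have h2 : ∀ c : ℂ, φ (algebraMap ℂ A c) = c := fun c => by
      have := AlgHomClass.commutes φ c
      simpa using this
    simp only [h2, sub_self, zero_mul, Finset.sum_const_zero, add_zero] at h1
    exact zero_ne_one h1
  -- the subalgebra of elements whose values converge to the character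
  set Cv : Subalgebra ℂ A :=
    { carrier := {a | Tendsto (fun z => ev z a) ℱ (𝓝 (φ a))}
      mul_mem' := by
        intro a b ha hb
        have := Tendsto.mul ha hb
        simpa [map_mul] using this
      add_mem' := by
        intro a b ha hb
        have := Tendsto.add ha hb
        simpa [map_add] using this
      algebraMap_mem' := by
        intro c
        have h2 : φ (algebraMap ℂ A c) = c := by
          have := AlgHomClass.commutes φ c
          simpa using this
        simp only [Set.mem_ofPred_eq, AlgHom.commutes, h2]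
        exact tendsto_const_nhds } with hCv
  have hsub : Algebra.adjoin ℂ (insert G R) ≤ Cv := by
    refine Algebra.adjoin_le ?_
    intro h hh
    change Tendsto (fun z => ev z h) ℱ (𝓝 (φ h))
    have h1 : ℱ ≤ comap (fun z => ev z h) (𝓝 (φ h)) := by
      rw [hℱ]
      exact iInf_le (fun h : ↥(insert G R) => comap (fun z => ev z (h : A)) (𝓝 (φ (h : A))))
        ⟨h, hh⟩
    exact tendsto_comap.mono_left h1
  have hφn : ∀ a : A, ‖φ a‖ ≤ ‖a‖ * ‖(1 : A)‖ := by
    intro a
    have := AlgHom.norm_apply_le_self_mul_norm_one (WeakDual.CharacterSpace.toAlgHom φ) a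
    exact this
  have hcl : ∀ a ∈ (Algebra.adjoin ℂ (insert G R)).topologicalClosure,
      Tendsto (fun z => ev z a) ℱ (𝓝 (φ a)) := by
    intro a ha
    rw [Metric.tendsto_nhds]
    intro η hη
    have h0 : (0 : ℝ) < η / (2 * (1 + ‖(1 : A)‖)) := by positivity
    have ha' : a ∈ closure ((Algebra.adjoin ℂ (insert G R) : Subalgebra ℂ A) : Set A) := ha
    obtain ⟨b, hb, hab⟩ := Metric.mem_closure_iff.1 ha' _ h0
    have h1 : Tendsto (fun z => ev z b) ℱ (𝓝 (φ b)) := hsub hb
    rw [Metric.tendsto_nhds] at h1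
    filter_upwards [h1 (η / 2) (by positivity)] with z hz
    rw [dist_eq_norm] at hab hz ⊢
    have e1 : ev z a - φ a = ev z (a - b) + (ev z b - φ b) - φ (a - b) := by
      rw [map_sub, map_sub]
      ring
    rw [e1]
    have h2 := hev z (a - b)
    have h3 := hφn (a - b)
    have h4 : ‖a - b‖ * (1 + ‖(1 : A)‖) < η / 2 := by
      have h5 : (0 : ℝ) < 1 + ‖(1 : A)‖ := by positivity
      calc ‖a - b‖ * (1 + ‖(1 : A)‖) < η / (2 * (1 + ‖(1 : A)‖)) * (1 + ‖(1 : A)‖) := by gcongr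
        _ = η / 2 := by field_simp
    calc ‖ev z (a - b) + (ev z b - φ b) - φ (a - b)‖
        ≤ ‖ev z (a - b) + (ev z b - φ b)‖ + ‖φ (a - b)‖ := norm_sub_le _ _
      _ ≤ ‖ev z (a - b)‖ + ‖ev z b - φ b‖ + ‖φ (a - b)‖ := by gcongr; exact norm_add_le _ _
      _ < η := by nlinarith
  exact ⟨ℱ, hne, hcl⟩

/-- **From tuples to the closed algebra.** -/
theorem char_main (ev : S → A →ₐ[ℂ] ℂ) (hev : ∀ z a, ‖ev z a‖ ≤ ‖a‖) (R : Set A) (G : A)
    (T : ∀ (t : Finset A), (∀ h ∈ t, h ∈ R) → ∀ (c : A → ℂ) (c0 : ℂ) (δ : ℝ), 0 < δ →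
      (∀ z, δ ≤ ∑ h ∈ t, ‖ev z h - c h‖ + ‖ev z G - c0‖) →
      ∃ (g : A → A) (g0 : A), ∑ h ∈ t, (h - algebraMap ℂ A (c h)) * g h +
        (G - algebraMap ℂ A c0) * g0 = 1)
    {N : ℕ} (F : Fin N → A)
    (hF : ∀ i, F i ∈ (Algebra.adjoin ℂ (insert G R)).topologicalClosure)
    {δ : ℝ} (hδ : 0 < δ) (hlow : ∀ z, δ ≤ ∑ i, ‖ev z (F i)‖) :
    ∃ g : Fin N → A, ∑ i, F i * g i = 1 := by
  classical
  by_contra hno
  have hI : Ideal.span (Set.range F) ≠ ⊤ := by
    intro htop
    apply hno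
    have h1 : (1 : A) ∈ Ideal.span (Set.range F) := by rw [htop]; trivial
    obtain ⟨g, hg⟩ := (Ideal.mem_span_range_iff_exists_fun).1 h1
    exact ⟨g, by rw [← hg]; exact Finset.sum_congr rfl (fun i _ => mul_comm _ _)⟩
  obtain ⟨m, hm, hle⟩ := Ideal.exists_le_maximal _ hI
  set φ := m.toCharacterSpace with hφ
  have hφF : ∀ i, φ (F i) = 0 := fun i =>
    m.toCharacterSpace_apply_eq_zero_of_mem (hle (Ideal.subset_span ⟨i, rfl⟩))
  obtain ⟨ℱ, hne, hcl⟩ := char_ct ev hev R G T φ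
  have h1 : Tendsto (fun z => ∑ i, ‖ev z (F i)‖) ℱ (𝓝 (∑ i : Fin N, ‖φ (F i)‖)) :=
    tendsto_finsetSum _ (fun i _ => (hcl (F i) (hF i)).norm)
  simp only [hφF, norm_zero, Finset.sum_const_zero] at h1
  have h2 : δ ≤ 0 := ge_of_tendsto h1 (Eventually.of_forall hlow)
  linarith

end Pool.Agent.Y263.LF
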