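import Mathlib
import Pool.Agent.H720R2.Cor.Lim
import Pool.Agent.Y263.LF.Char

/-!
The Banach algebra of bounded holomorphic functions on the unit ball.
-/

set_option autoImplicit false
set_option linter.unusedSectionVars false

open MeasureTheory Metric Set Filter Topology Complex

namespace Pool.Agent.Y263.LF

open Pool.Agent.H720R2

variable (X : Type) [NormedAddCommGroup X] [NormedSpace ℂ X]

/-- The algebra `H^∞(B)` of bounded holomorphic functions on the open unit ball `B` of `X`, with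
the supremum norm. -/
noncomputable def Hb : Subalgebra ℂ (BoundedContinuousFunction (ball (0 : X) 1) ℂ) where
  carrier := {φ | ∃ F : X → ℂ, DifferentiableOn ℂ F (ball 0 1) ∧ ∀ z, φ z = F z}
  mul_mem' := by
    rintro a b ⟨F, hF, hF2⟩ ⟨G, hG, hG2⟩
    exact ⟨fun z => F z * G z, hF.fun_mul hG, fun z => by
      change a z * b z = F z * G z
      rw [← hF2, ← hG2]⟩
  add_mem' := by
    rintro a b ⟨F, hF, hF2⟩ ⟨G, hG, hG2⟩
    exact ⟨fun z => F z + G z, hF.fun_add hG, fun z => by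
      change a z + b z = F z + G z
      rw [← hF2, ← hG2]⟩
  algebraMap_mem' := fun c => ⟨fun _ => c, differentiableOn_const _, fun _ => rfl⟩

variable {X}

theorem Hb_closed [FiniteDimensional ℂ X] :
    IsClosed ((Hb X : Subalgebra ℂ (BoundedContinuousFunction (ball (0 : X) 1) ℂ)) :
      Set (BoundedContinuousFunction (ball (0 : X) 1) ℂ)) := by
  refine isClosed_of_closure_subset (fun φ hφ => ?_)
  have h1 : ∀ n : ℕ, ∃ ψ ∈ ((Hb X : Subalgebra ℂ (BoundedContinuousFunction (ball (0 : X) 1) ℂ)) :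
      Set (BoundedContinuousFunction (ball (0 : X) 1) ℂ)), dist φ ψ < 1 / ((n : ℝ) + 1) :=
    fun n => Metric.mem_closure_iff.1 hφ _ (by positivity)
  choose ψ hψ hd using h1
  choose F hF hF2 using hψ
  set 𝒰 : Ultrafilter ℕ := Ultrafilter.of atTop with h𝒰
  have hle : (𝒰 : Filter ℕ) ≤ atTop := Ultrafilter.of_le _
  have hb : ∀ n, ∀ p ∈ ball (0 : X) 1, ‖F n p‖ ≤ ‖φ‖ + 1 := by
    intro n p hp
    have h2 : F n p = ψ n ⟨p, hp⟩ := (hF2 n ⟨p, hp⟩).symm
    rw [h2]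
    have h3 := (ψ n).norm_coe_le_norm ⟨p, hp⟩
    have h4 : ‖ψ n‖ ≤ ‖φ‖ + ‖φ - ψ n‖ := by
      have := norm_sub_le φ (φ - ψ n)
      rwa [sub_sub_cancel] at this
    have h5 := hd n
    rw [dist_eq_norm] at h5
    have h6 : 1 / ((n : ℝ) + 1) ≤ 1 := by
      rw [div_le_one (by positivity)]
      have : (0 : ℝ) ≤ n := Nat.cast_nonneg n
      linarith
    linarith
  obtain ⟨V, hV1, -, hV3⟩ := Cor.ultra_lim isOpen_ball 𝒰 F hF hb
  refine ⟨V, hV1, fun z => ?_⟩
  have h2 : Tendsto (fun n => F n z) 𝒰 (𝓝 (V z)) := hV3 z z.2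
  have h3 : Tendsto (fun n => ψ n) atTop (𝓝 φ) := by
    rw [tendsto_iff_dist_tendsto_zero]
    refine squeeze_zero (fun n => dist_nonneg) (fun n => ?_) tendsto_one_div_add_atTop_nhds_zero_nat
    rw [dist_comm]
    exact (hd n).le
  have h4 : Tendsto (fun n => ψ n z) atTop (𝓝 (φ z)) :=
    ((BoundedContinuousFunction.lipschitz_eval_const z).continuous.tendsto φ).comp h3
  have h5 : Tendsto (fun n => F n z) atTop (𝓝 (φ z)) := by
    refine h4.congr (fun n => hF2 n z)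
  exact tendsto_nhds_unique (h5.mono_left hle) h2

instance [FiniteDimensional ℂ X] : CompleteSpace (Hb X) :=
  Hb_closed.completeSpace_coe

/-- a bounded holomorphic function as an element of the algebra -/
noncomputable def mkH (F : X → ℂ) (hF : DifferentiableOn ℂ F (ball 0 1)) (C : ℝ)
    (hC : ∀ z ∈ ball (0 : X) 1, ‖F z‖ ≤ C) : Hb X :=
  ⟨BoundedContinuousFunction.ofNormedAddCommGroup (fun z : ball (0 : X) 1 => F z)
    (continuousOn_iff_continuous_domRestrict.1 hF.continuousOn) C (fun z => hC z z.2),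
    F, hF, fun _ => rfl⟩

theorem mkH_apply (F : X → ℂ) (hF : DifferentiableOn ℂ F (ball 0 1)) (C : ℝ)
    (hC : ∀ z ∈ ball (0 : X) 1, ‖F z‖ ≤ C) (z : ball (0 : X) 1) :
    (mkH F hF C hC : BoundedContinuousFunction (ball (0 : X) 1) ℂ) z = F z := rfl

/-- evaluation at a point of the ball -/
noncomputable def evH (z : ball (0 : X) 1) : Hb X →ₐ[ℂ] ℂ where
  toFun φ := (φ : BoundedContinuousFunction (ball (0 : X) 1) ℂ) z
  map_one' := rfl
  map_mul' _ _ := rfl
  map_zero' := rfl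
  map_add' _ _ := rfl
  commutes' _ := rfl

theorem evH_apply (z : ball (0 : X) 1) (φ : Hb X) :
    evH z φ = (φ : BoundedContinuousFunction (ball (0 : X) 1) ℂ) z := rfl

theorem evH_le (z : ball (0 : X) 1) (φ : Hb X) : ‖evH z φ‖ ≤ ‖φ‖ :=
  (φ : BoundedContinuousFunction (ball (0 : X) 1) ℂ).norm_coe_le_norm z

theorem Hb_ext {φ ψ : Hb X} (h : ∀ z, evH z φ = evH z ψ) : φ = ψ :=
  Subtype.ext (BoundedContinuousFunction.ext h)

/-- the elements of the algebra given by the functions in `𝓡` -/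
def SR (𝓡 : Set (X → ℂ)) : Set (Hb X) := {φ | ∃ h ∈ 𝓡, ∀ z, evH z φ = h z}

/-- the closed algebra generated by `G` and the functions in `𝓡` -/
noncomputable def CA (𝓡 : Set (X → ℂ)) (G : Hb X) : Subalgebra ℂ (Hb X) :=
  (Algebra.adjoin ℂ (insert G (SR 𝓡))).topologicalClosure

/-- the corona theorem for tuples of functions of the form `h - c`, `h ∈ 𝓡`, and one arbitrary
function -/
def Tup (𝓡 : Set (X → ℂ)) : Prop :=
  ∀ (K : ℕ) (h : Fin K → X → ℂ), (∀ j, h j ∈ 𝓡) → ∀ (c : Fin K → ℂ) (G : X → ℂ),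
      DifferentiableOn ℂ G (ball 0 1) → (∃ C : ℝ, ∀ z ∈ ball (0 : X) 1, ‖G z‖ ≤ C) →
      ∀ δ : ℝ, 0 < δ → (∀ z ∈ ball (0 : X) 1, δ ≤ ∑ j, ‖h j z - c j‖ + ‖G z‖) →
      ∃ (g : Fin K → X → ℂ) (g0 : X → ℂ) (C : ℝ), (∀ j, DifferentiableOn ℂ (g j) (ball 0 1)) ∧
        DifferentiableOn ℂ g0 (ball 0 1) ∧ (∀ j, ∀ z ∈ ball (0 : X) 1, ‖g j z‖ ≤ C) ∧
        (∀ z ∈ ball (0 : X) 1, ‖g0 z‖ ≤ C) ∧
        ∀ z ∈ ball (0 : X) 1, ∑ j, (h j z - c j) * g j z + G z * g0 z = 1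

/-- **Cluster value theorem** for closed algebras of bounded holomorphic functions on the ball. -/
theorem alg_ct [FiniteDimensional ℂ X] {𝓡 : Set (X → ℂ)} (T : Tup 𝓡) (G : Hb X)
    (φ : WeakDual.characterSpace ℂ (Hb X)) :
    ∃ ℱ : Filter (ball (0 : X) 1), ℱ.NeBot ∧ ∀ a ∈ CA 𝓡 G,
      Tendsto (fun z => evH z a) ℱ (𝓝 (φ a)) := by
  classical
  refine char_ct evH evH_le (SR 𝓡) G ?_ φ
  intro t ht c c0 δ hδ hlow
  choose! h hh1 hh2 using ht
  obtain ⟨G', hG', hG'2⟩ := G.2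
  set e := t.equivFin.symm with he
  obtain ⟨g, g0, C, h1, h2, h3, h4, h5⟩ := T t.card (fun j => h (e j)) (fun j => hh1 _ (e j).2)
    (fun j => c (e j)) (fun z => G' z - c0) (hG'.sub_const _)
    ⟨‖G‖ + ‖c0‖, fun z hz => by
      refine (norm_sub_le _ _).trans ?_
      have := evH_le ⟨z, hz⟩ G
      have h6 : evH ⟨z, hz⟩ G = G' z := hG'2 ⟨z, hz⟩
      rw [h6] at this
      linarith⟩ δ hδ
    (fun z hz => by
      have h6 := hlow ⟨z, hz⟩
      have h7 : evH ⟨z, hz⟩ G = G' z := hG'2 ⟨z, hz⟩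
      have h8 : (∑ a ∈ t, ‖evH ⟨z, hz⟩ a - c a‖ : ℝ) =
          ∑ j : Fin t.card, ‖h (e j) z - c (e j)‖ := by
        rw [← Finset.sum_coe_sort t, ← Equiv.sum_comp e]
        refine Finset.sum_congr rfl (fun j _ => ?_)
        rw [hh2 _ (e j).2 ⟨z, hz⟩]
      rw [h8, h7] at h6
      exact h6)
  refine ⟨fun a => if ha : a ∈ t then mkH (g (e.symm ⟨a, ha⟩)) (h1 _) C (h3 _) else 0,
    mkH g0 h2 C h4, ?_⟩
  refine Hb_ext (fun z => ?_)
  have h6 := h5 z z.2
  rw [map_add, map_sum, map_mul, map_sub, map_one]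
  rw [← h6]
  congr 1
  · rw [← Finset.sum_coe_sort t, ← Equiv.sum_comp e]
    refine Finset.sum_congr rfl (fun j _ => ?_)
    beta_reduce
    rw [map_mul, map_sub, dif_pos (e j).2, hh2 _ (e j).2 z]
    have h7 : e.symm ⟨(e j : Hb X), (e j).2⟩ = j := by simp
    rw [h7]
    rfl
  · have h7 : evH z G = G' z := hG'2 z
    rw [h7]
    rfl

/-- from characters to solutions -/
theorem exists_char {N : ℕ} {A : Type} [NormedCommRing A] [NormedAlgebra ℂ A] [CompleteSpace A]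
    (F : Fin N → A) (hno : ¬ ∃ g : Fin N → A, ∑ i, F i * g i = 1) :
    ∃ φ : WeakDual.characterSpace ℂ A, ∀ i, φ (F i) = 0 := by
  have hI : Ideal.span (Set.range F) ≠ ⊤ := by
    intro htop
    apply hno
    have h1 : (1 : A) ∈ Ideal.span (Set.range F) := by rw [htop]; trivial
    obtain ⟨g, hg⟩ := (Ideal.mem_span_range_iff_exists_fun).1 h1
    exact ⟨g, by rw [← hg]; exact Finset.sum_congr rfl (fun i _ => mul_comm _ _)⟩
  obtain ⟨m, hm, hle⟩ := Ideal.exists_le_maximal _ hI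
  exact ⟨m.toCharacterSpace, fun i =>
    m.toCharacterSpace_apply_eq_zero_of_mem (hle (Ideal.subset_span ⟨i, rfl⟩))⟩

end Pool.Agent.Y263.LF
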