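import Mathlib
import Pool.Agent.Y263.LF.Hinf

/-!
The local corona theorem: data which near every boundary point are asymptotic to elements of a
closed algebra generated by good functions and one arbitrary function.
-/

set_option autoImplicit false
set_option linter.unusedSectionVars false

open MeasureTheory Metric Set Filter Topology Complex

namespace Pool.Agent.Y263.LF

variable {X : Type} [NormedAddCommGroup X] [InnerProductSpace ℂ X] [FiniteDimensional ℂ X]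

/-- the linear forms -/
noncomputable def linH (u : X) : Hb X :=
  mkH (fun z => (inner ℂ u z : ℂ)) (innerSL ℂ u).differentiable.differentiableOn ‖u‖
    (fun z hz => by
      refine (norm_inner_le_norm _ _).trans ?_
      have := (mem_ball_zero_iff.1 hz).le
      calc ‖u‖ * ‖z‖ ≤ ‖u‖ * 1 := by gcongr
        _ = ‖u‖ := mul_one _)

theorem linH_apply (u : X) (z : ball (0 : X) 1) : evH z (linH u) = inner ℂ u z := rfl

/-- the point under a character -/
theorem base_point {𝓡 : Set (X → ℂ)} (T : Tup 𝓡) (hlin : ∀ u G, linH u ∈ CA 𝓡 G)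
    (φ : WeakDual.characterSpace ℂ (Hb X)) :
    ∃ p : X, ‖p‖ ≤ 1 ∧ ∀ G : Hb X, ∃ ℱ : Filter (ball (0 : X) 1), ℱ.NeBot ∧
      Tendsto (fun z : ball (0 : X) 1 => (z : X)) ℱ (𝓝 p) ∧
      ∀ a ∈ CA 𝓡 G, Tendsto (fun z => evH z a) ℱ (𝓝 (φ a)) := by
  have key : ∀ G : Hb X, ∃ (p : X) (ℱ : Filter (ball (0 : X) 1)), ‖p‖ ≤ 1 ∧ ℱ.NeBot ∧
      Tendsto (fun z : ball (0 : X) 1 => (z : X)) ℱ (𝓝 p) ∧
      (∀ a ∈ CA 𝓡 G, Tendsto (fun z => evH z a) ℱ (𝓝 (φ a))) ∧
      ∀ u : X, (inner ℂ u p : ℂ) = φ (linH u) := by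
    intro G
    obtain ⟨ℱ, hne, hℱ⟩ := alg_ct T G φ
    set 𝒰 : Ultrafilter (ball (0 : X) 1) := Ultrafilter.of ℱ with h𝒰
    have hle : (𝒰 : Filter (ball (0 : X) 1)) ≤ ℱ := Ultrafilter.of_le ℱ
    have hK : IsCompact (closedBall (0 : X) 1) := isCompact_closedBall 0 1
    obtain ⟨p, hp, hp2⟩ := isCompact_iff_ultrafilter_le_nhds.1 hK
      (𝒰.map (fun z : ball (0 : X) 1 => (z : X))) (by
        rw [le_principal_iff, Ultrafilter.coe_map, Filter.mem_map]
        exact Filter.univ_mem' (fun z => ball_subset_closedBall z.2))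
    have hp3 : Tendsto (fun z : ball (0 : X) 1 => (z : X)) 𝒰 (𝓝 p) := hp2
    refine ⟨p, 𝒰, mem_closedBall_zero_iff.1 hp, 𝒰.neBot, hp3, fun a ha => (hℱ a ha).mono_left hle,
      fun u => ?_⟩
    have h1 : Tendsto (fun z => evH z (linH u)) 𝒰 (𝓝 (φ (linH u))) :=
      (hℱ _ (hlin u G)).mono_left hle
    have h2 : Tendsto (fun z : ball (0 : X) 1 => (inner ℂ u (z : X) : ℂ)) 𝒰 (𝓝 (inner ℂ u p)) :=
      ((innerSL ℂ u).continuous.tendsto p).comp hp3
    exact tendsto_nhds_unique h2 h1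
  obtain ⟨p, -, hp1, -, -, -, hpu⟩ := key 0
  refine ⟨p, hp1, fun G => ?_⟩
  obtain ⟨q, ℱ, -, hne, hq, hℱ, hqu⟩ := key G
  have hpq : q = p := by
    refine ext_inner_left ℂ (fun u => ?_)
    rw [hpu u, hqu u]
  rw [hpq] at hq
  exact ⟨ℱ, hne, hq, hℱ⟩

/-- **Local corona theorem.** -/
theorem local_main {𝓡 : Set (X → ℂ)} (T : Tup 𝓡) (hlin : ∀ u G, linH u ∈ CA 𝓡 G) {N : ℕ}
    (F : Fin N → Hb X) (h0 : ∀ z, ∃ j, evH z (F j) ≠ 0)
    (hp : ∀ p : X, ‖p‖ = 1 → ∃ (G : Hb X) (S : Finset (Fin N)) (a : Fin N → Hb X) (c : ℝ), 0 < c ∧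
      (∀ᶠ z in comap (Subtype.val : ball (0 : X) 1 → X) (𝓝 p), c ≤ ∑ j ∈ S, ‖evH z (F j)‖) ∧
      ∀ j ∈ S, a j ∈ CA 𝓡 G ∧ Tendsto (fun z => evH z (F j) - evH z (a j))
        (comap (Subtype.val : ball (0 : X) 1 → X) (𝓝 p)) (𝓝 0)) :
    ∃ g : Fin N → Hb X, ∑ j, F j * g j = 1 := by
  classical
  by_contra hno
  obtain ⟨φ, hφ⟩ := exists_char F hno
  obtain ⟨p, hp1, hp2⟩ := base_point T hlin φ
  have hself : ∀ G : Hb X, G ∈ CA 𝓡 G := fun G =>
    Subalgebra.le_topologicalClosure _ (Algebra.subset_adjoin (mem_insert _ _))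
  rcases lt_or_eq_of_le hp1 with hlt | heq
  · -- interior point
    have hpb : p ∈ ball (0 : X) 1 := mem_ball_zero_iff.2 hlt
    obtain ⟨j, hj⟩ := h0 ⟨p, hpb⟩
    apply hj
    obtain ⟨ℱ, hne, hz, ha⟩ := hp2 (F j)
    have h1 := ha _ (hself (F j))
    rw [hφ j] at h1
    have h2 : Tendsto (fun z : ball (0 : X) 1 => evH z (F j)) ℱ (𝓝 (evH ⟨p, hpb⟩ (F j))) := by
      have h3 : Tendsto (fun z : ball (0 : X) 1 => z) ℱ (𝓝 (⟨p, hpb⟩ : ball (0 : X) 1)) := by
        rw [tendsto_subtype_rng]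
        exact hz
      exact ((F j : BoundedContinuousFunction (ball (0 : X) 1) ℂ).continuous.tendsto _).comp h3
    exact tendsto_nhds_unique h2 h1
  · -- boundary point
    obtain ⟨G, S, a, c, hc, hlow, hS⟩ := hp p heq
    have hcomap : ∀ {ℱ : Filter (ball (0 : X) 1)},
        Tendsto (fun z : ball (0 : X) 1 => (z : X)) ℱ (𝓝 p) →
        ℱ ≤ comap (Subtype.val : ball (0 : X) 1 → X) (𝓝 p) := fun h => tendsto_iff_comap.1 h
    have hu : ∀ j ∈ S, φ (a j) = 0 := by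
      intro j hj
      obtain ⟨ℱ, hne, hz, ha⟩ := hp2 (F j - a j)
      have h1 := ha _ (hself (F j - a j))
      have h2 : Tendsto (fun z => evH z (F j - a j)) ℱ (𝓝 0) := by
        have h3 := ((hS j hj).2).mono_left (hcomap hz)
        refine h3.congr (fun z => ?_)
        rw [map_sub]
      have h3 := tendsto_nhds_unique h1 h2
      rw [map_sub, hφ j, zero_sub, neg_eq_zero] at h3
      exact h3
    obtain ⟨ℱ, hne, hz, ha⟩ := hp2 G
    have h1 : ∀ j ∈ S, Tendsto (fun z => ‖evH z (F j)‖) ℱ (𝓝 0) := by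
      intro j hj
      have h2 := ha _ (hS j hj).1
      rw [hu j hj] at h2
      have h3 := ((hS j hj).2).mono_left (hcomap hz)
      have h4 := (h3.add h2).norm
      rw [add_zero, norm_zero] at h4
      refine h4.congr (fun z => ?_)
      rw [sub_add_cancel]
    have h2 : Tendsto (fun z => ∑ j ∈ S, ‖evH z (F j)‖) ℱ (𝓝 (∑ j ∈ S, (0 : ℝ))) :=
      tendsto_finsetSum _ h1
    rw [Finset.sum_const_zero] at h2
    have h3 : c ≤ 0 := ge_of_tendsto h2 (hcomap hz hlow)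
    linarith

end Pool.Agent.Y263.LF
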