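import Mathlib
import Pool.Agent.Y263.LF.Loc

/-!
Localisation theorem on the ball for functions of finitely many linear forms.
-/

set_option autoImplicit false
set_option linter.unusedSectionVars false

open MeasureTheory Metric Set Filter Topology Complex
open scoped ContDiff

namespace Pool.Agent.Y263.LF

open Pool.Agent.H788R3.Cor3 (exhaust3)

section

variable {X : Type} [NormedAddCommGroup X] [InnerProductSpace ℂ X]

/-- the functions which are still present -/
noncomputable def TI {κ J : Type} [DecidableEq κ] {N : ℕ} (u : κ → X) (f : κ → Fin N → ℂ → ℂ) (G : J → X → ℂ)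
    (I : Finset κ) : (κ × Fin N) ⊕ J → X → ℂ :=
  Sum.elim (fun q z => if q.1 ∈ I then 0 else f q.1 q.2 (inner ℂ (u q.1) z)) G

theorem TI_diff {κ J : Type} [DecidableEq κ] {N : ℕ} {u : κ → X} {f : κ → Fin N → ℂ → ℂ} {r : ℝ}
    (hd : Dat u f r) {G : J → X → ℂ} (hG : ∀ j, DifferentiableOn ℂ (G j) (ball 0 r))
    (I : Finset κ) (q : (κ × Fin N) ⊕ J) : DifferentiableOn ℂ (TI u f G I q) (ball 0 r) := by
  rcases q with q | j
  · by_cases h : q.1 ∈ I
    · have h1 : TI u f G I (Sum.inl q) = fun _ => 0 := by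
        funext z
        simp [TI, h]
      rw [h1]
      exact differentiableOn_const _
    · have h1 : TI u f G I (Sum.inl q) = fun z => f q.1 q.2 (inner ℂ (u q.1) z) := by
        funext z
        simp [TI, h]
      rw [h1]
      intro z hz
      exact (hd.diffAt q.1 q.2 (mem_ball_zero_iff.1 hz)).differentiableWithinAt
  · exact hG j

theorem TI_bd {κ J : Type} [DecidableEq κ] {N : ℕ} {u : κ → X} {f : κ → Fin N → ℂ → ℂ} {r : ℝ}
    (hd : Dat u f r) {G : J → X → ℂ} (hG : ∀ j, ∀ z ∈ ball (0 : X) r, ‖G j z‖ ≤ 1)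
    (I : Finset κ) (q : (κ × Fin N) ⊕ J) : ∀ z ∈ ball (0 : X) r, ‖TI u f G I q z‖ ≤ 1 := by
  intro z hz
  rcases q with q | j
  · by_cases h : q.1 ∈ I
    · simp [TI, h]
    · simp only [TI, Sum.elim_inl, h, if_false]
      exact hd.fb _ _ _ (hd.mem q.1 (mem_ball_zero_iff.1 hz))
  · exact hG j z hz

theorem TI_merge {κ J : Type} [Fintype κ] [DecidableEq κ] [Fintype J] {N : ℕ} {u : κ → X}
    {f : κ → Fin N → ℂ → ℂ} {G : J → X → ℂ} {I : Finset κ} {k : κ} (hk : k ∉ I) {Ω : Set X} {C : ℝ}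
    (h : Bez Ω (Sum.elim (fun (i : Fin N) z => f k i (inner ℂ (u k) z)) (TI u f G (insert k I))) C) :
    Bez Ω (TI u f G I) C := by
  obtain ⟨g, h1, h2, h3⟩ := h
  refine ⟨Sum.elim (fun q z => if q.1 = k then g (Sum.inl q.2) z else g (Sum.inr (Sum.inl q)) z)
    (fun j z => g (Sum.inr (Sum.inr j)) z), ?_, ?_, ?_⟩
  · rintro (q | j)
    · by_cases hq : q.1 = k
      · simp only [Sum.elim_inl, hq, if_true]
        exact h1 _
      · simp only [Sum.elim_inl, hq, if_false]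
        exact h1 _
    · exact h1 _
  · rintro (q | j) z hz
    · by_cases hq : q.1 = k
      · simp only [Sum.elim_inl, hq, if_true]
        exact h2 _ z hz
      · simp only [Sum.elim_inl, hq, if_false]
        exact h2 _ z hz
    · exact h2 _ z hz
  · intro z hz
    have h4 := h3 z hz
    rw [Fintype.sum_sum_type, Fintype.sum_sum_type, Fintype.sum_prod_type] at h4
    rw [Fintype.sum_sum_type, Fintype.sum_prod_type]
    simp only [Sum.elim_inl, Sum.elim_inr, TI] at h4 ⊢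
    rw [← h4, ← add_assoc]
    congr 1
    have h5 : ∀ k' : κ, ∑ i, (if k' ∈ I then (0 : ℂ) else f k' i (inner ℂ (u k') z)) *
        (if k' = k then g (Sum.inl i) z else g (Sum.inr (Sum.inl (k', i))) z) =
        (if k' = k then ∑ i, f k i (inner ℂ (u k) z) * g (Sum.inl i) z else 0) +
        ∑ i, (if k' ∈ insert k I then (0 : ℂ) else f k' i (inner ℂ (u k') z)) *
          g (Sum.inr (Sum.inl (k', i))) z := by
      intro k'
      by_cases hk' : k' = k
      · subst hk'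
        simp [hk]
      · simp [hk']
    simp only [h5]
    rw [Finset.sum_add_distrib, Finset.sum_ite_eq' Finset.univ k, if_pos (Finset.mem_univ _)]

end

/-- the induction over the forms -/
theorem loc_ind (N K M : ℕ) (m : ℕ) : ∀ (ε Q : ℝ), 0 < ε → ε ≤ 1 → 0 ≤ Q →
    ∃ C : ℝ, 0 ≤ C ∧ ∀ (X : Type) [NormedAddCommGroup X]
    [InnerProductSpace ℂ X] [FiniteDimensional ℂ X] [MeasurableSpace X] [BorelSpace X]
    (u : Fin K → X) (f : Fin K → Fin N → ℂ → ℂ) (r : ℝ), Dat u f r →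
    ∀ (I : Finset (Fin K)), I.card = m →
    ∀ (G : Fin M → X → ℂ), (∀ j, DifferentiableOn ℂ (G j) (ball 0 r)) →
    (∀ j, ∀ z ∈ ball (0 : X) r, ‖G j z‖ ≤ 1) →
    Bez (Dom u f r I ε) (TI u f G I) Q → Bez (ball 0 r) (TI u f G ∅) C := by
  induction m with
  | zero =>
    intro ε Q hε hε1 hQ
    refine ⟨Q, hQ, ?_⟩
    intro X _ _ _ _ _ u f r hd I hI G hG hGb h
    have hI0 : I = ∅ := Finset.card_eq_zero.1 hI
    subst hI0
    refine h.mono (fun z hz => ?_) le_rfl
    exact ⟨mem_ball_zero_iff.1 hz, fun k hk => absurd hk (Finset.notMem_empty _)⟩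
  | succ m ih =>
    intro ε Q hε hε1 hQ
    obtain ⟨ε₁, C₁, hε₁, hε₁ε, hC₁, H⟩ := locStep N m (K * N + M) hε hε1 hQ
    obtain ⟨C, hC, H2⟩ := ih ε₁ C₁ hε₁ (hε₁ε.trans hε1) hC₁
    refine ⟨C, hC, ?_⟩
    intro X _ _ _ _ _ u f r hd I hI G hG hGb h
    obtain ⟨k, J, hkJ, rfl, hJ⟩ := Finset.card_eq_succ.1 hI
    refine H2 X u f r hd J hJ G hG hGb ?_
    refine TI_merge hkJ ?_
    exact H X (Fin K) u f r hd J hJ k ((Fin K × Fin N) ⊕ Fin M) (by simp) _
      (fun q => TI_diff hd hG _ q) (fun q => TI_bd hd hGb _ q) h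

/-- **Localisation theorem on the unit ball.** -/
theorem loc_main (N K M : ℕ) {ε Q : ℝ} (hε : 0 < ε) (hQ : 0 ≤ Q) :
    ∃ C : ℝ, 0 ≤ C ∧ ∀ (X : Type) [NormedAddCommGroup X]
    [InnerProductSpace ℂ X] [FiniteDimensional ℂ X]
    (u : Fin K → X) (f : Fin K → Fin N → ℂ → ℂ), (∀ k, ‖u k‖ ≤ 1) →
    (∀ k i, DifferentiableOn ℂ (f k i) (ball 0 1)) →
    (∀ k i, ∀ z ∈ ball (0 : ℂ) 1, ‖f k i z‖ ≤ 1) →
    ∀ (G : Fin M → X → ℂ), (∀ j, DifferentiableOn ℂ (G j) (ball 0 1)) →
    (∀ j, ∀ z ∈ ball (0 : X) 1, ‖G j z‖ ≤ 1) →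
    Bez {z : X | ‖z‖ < 1 ∧ ∀ k i, ‖f k i (inner ℂ (u k) z)‖ < ε} G Q →
    Bez (ball 0 1) (Sum.elim (fun (q : Fin K × Fin N) z => f q.1 q.2 (inner ℂ (u q.1) z)) G) C := by
  obtain ⟨C, hC, H⟩ := loc_ind N K M K (min ε 1) Q (lt_min hε one_pos) (min_le_right _ _) hQ
  refine ⟨C, hC, ?_⟩
  intro X _ _ _ u f hu hf hfb G hG hGb hbez
  classical
  let _ : MeasurableSpace X := borel X
  have _ : BorelSpace X := ⟨rfl⟩
  -- measurable modifications
  set f' : Fin K → Fin N → ℂ → ℂ := fun k i => (ball (0 : ℂ) 1).indicator (f k i) with hf'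
  have hfeq : ∀ k i, ∀ z ∈ ball (0 : ℂ) 1, f' k i z = f k i z := fun k i z hz =>
    indicator_of_mem hz _
  have hin : ∀ k, ∀ z : X, ‖z‖ < 1 → (inner ℂ (u k) z : ℂ) ∈ ball (0 : ℂ) 1 := by
    intro k z hz
    rw [mem_ball_zero_iff]
    refine lt_of_le_of_lt (norm_inner_le_norm _ _) ?_
    have := hu k
    calc ‖u k‖ * ‖z‖ ≤ 1 * ‖z‖ := by gcongr
      _ < 1 := by rwa [one_mul]
  have hdat : ∀ r : ℝ, 0 < r → r < 1 → Dat u f' r := by
    intro r hr0 hr1
    refine ⟨hr0, hr1, hu, fun k i => (hf k i).congr (hfeq k i), fun k i z hz => ?_, fun k i => ?_⟩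
    · rw [hfeq k i z hz]
      exact hfb k i z hz
    · rw [hf']
      beta_reduce
      rw [← Set.piecewise_eq_indicator]
      exact ContinuousOn.measurable_piecewise (hf k i).continuousOn continuousOn_const
        isOpen_ball.measurableSet
  have hsol : ∀ r : ℝ, 0 < r → r < 1 → Bez (ball 0 r)
      (Sum.elim (fun (q : Fin K × Fin N) z => f q.1 q.2 (inner ℂ (u q.1) z)) G) C := by
    intro r hr0 hr1
    have hsub : ball (0 : X) r ⊆ ball 0 1 := ball_subset_ball hr1.le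
    have h1 := H X u f' r (hdat r hr0 hr1) Finset.univ (by simp) G (fun j => (hG j).mono hsub)
      (fun j z hz => hGb j z (hsub hz)) (by
        obtain ⟨g, g1, g2, g3⟩ := hbez
        have hs : Dom u f' r Finset.univ (min ε 1) ⊆
            {z : X | ‖z‖ < 1 ∧ ∀ k i, ‖f k i (inner ℂ (u k) z)‖ < ε} := by
          rintro z ⟨hz1, hz2⟩
          refine ⟨hz1.trans hr1, fun k i => ?_⟩
          rw [← hfeq k i _ (hin k z (hz1.trans hr1))]
          exact lt_of_lt_of_le (hz2 k (Finset.mem_univ k) i) (min_le_left _ _)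
        refine ⟨Sum.elim (fun _ _ => 0) g, ?_, ?_, ?_⟩
        · rintro (q | j)
          · exact differentiableOn_const _
          · exact (g1 j).mono hs
        · rintro (q | j) z hz
          · simpa using hQ
          · exact g2 j z (hs hz)
        · intro z hz
          rw [Fintype.sum_sum_type]
          simp only [Sum.elim_inl, Sum.elim_inr, mul_zero, Finset.sum_const_zero, zero_add, TI]
          exact g3 z (hs hz))
    obtain ⟨g, g1, g2, g3⟩ := h1
    refine ⟨g, g1, g2, fun z hz => ?_⟩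
    rw [← g3 z hz]
    refine Finset.sum_congr rfl (fun q _ => ?_)
    rcases q with q | j
    · simp only [TI, Sum.elim_inl, Finset.notMem_empty, if_false]
      rw [hfeq q.1 q.2 _ (hin q.1 z (mem_ball_zero_iff.1 (hsub hz)))]
    · simp only [TI, Sum.elim_inr]
  -- exhaustion
  set ρ : ℕ → ℝ := fun m => 1 - 1 / ((m : ℝ) + 2) with hρ
  have hρ0 : ∀ m, 0 < ρ m := by
    intro m
    have : (0 : ℝ) ≤ m := Nat.cast_nonneg m
    rw [hρ]
    beta_reduce
    rw [sub_pos, div_lt_one (by linarith)]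
    linarith
  have hρ1 : ∀ m, ρ m < 1 := by
    intro m
    have : (0 : ℝ) ≤ m := Nat.cast_nonneg m
    rw [hρ]
    beta_reduce
    have : 0 < 1 / ((m : ℝ) + 2) := by positivity
    linarith
  have hρt : Tendsto ρ atTop (𝓝 1) := by
    have h1 : Tendsto ρ atTop (𝓝 (1 - 0)) := by
      refine tendsto_const_nhds.sub ?_
      have h2 := (tendsto_one_div_add_atTop_nhds_zero_nat (𝕜 := ℝ))
      have h3 := h2.comp (tendsto_add_atTop_nat 1)
      refine h3.congr (fun m => ?_)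
      simp only [Function.comp_apply]
      push_cast
      ring
    rwa [sub_zero] at h1
  have hρm : Monotone ρ := by
    intro m n hmn
    have : (0 : ℝ) ≤ m := Nat.cast_nonneg m
    have h2 : (m : ℝ) ≤ n := by exact_mod_cast hmn
    simp only [hρ]
    gcongr
  obtain ⟨g, g1, g2, g3⟩ := exhaust3 (C := C) (fun m => ball (0 : X) (ρ m))
    (fun m => isOpen_ball) (fun m n hmn => ball_subset_ball (hρm hmn))
    (Sum.elim (fun (q : Fin K × Fin N) z => f q.1 q.2 (inner ℂ (u q.1) z)) G)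
    (fun m => hsol (ρ m) (hρ0 m) (hρ1 m))
  have hU : (⋃ m, ball (0 : X) (ρ m)) = ball 0 1 := by
    ext z
    rw [mem_iUnion]
    constructor
    · rintro ⟨m, hm⟩
      exact ball_subset_ball (hρ1 m).le hm
    · intro hz
      obtain ⟨m, hm⟩ := (hρt.eventually (lt_mem_nhds (mem_ball_zero_iff.1 hz))).exists
      exact ⟨m, mem_ball_zero_iff.2 hm⟩
  rw [hU] at g1 g2 g3
  exact ⟨g, g1, g2, g3⟩

end Pool.Agent.Y263.LF
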